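import Mathlib

set_option autoImplicit false
set_option linter.unusedSectionVars false

/-!
# Sparse plus low rank

`Rk r R`: the matrix `R` factors through a space of dimension at most `r`.
`RS D r T`: `T` is the sum of a matrix with at most `D` nonzero entries in each row and of a matrix
of rank at most `r`.
-/

namespace Pool.Agent.W967.Rig

open Matrix Finset

variable {K : Type*} [Field K] {m n k m' n' : Type} [Fintype m] [Fintype n] [Fintype k]
  [Fintype m'] [Fintype n']

/-- `R` factors through a space of dimension at most `r`. -/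
def Rk (r : ℝ) (R : Matrix m n K) : Prop :=
  ∃ (κ : Type) (_ : Fintype κ) (A : Matrix m κ K) (B : Matrix κ n K), R = A * B ∧
    (Fintype.card κ : ℝ) ≤ r

theorem Rk.rank_le {r : ℝ} {R : Matrix m n K} (h : Rk r R) : (R.rank : ℝ) ≤ r := by
  obtain ⟨κ, _, A, B, rfl, hr⟩ := h
  refine le_trans ?_ hr
  exact_mod_cast (Matrix.rank_mul_le_left A B).trans (Matrix.rank_le_card_width A)

theorem Rk.nonneg {r : ℝ} {R : Matrix m n K} (h : Rk r R) : 0 ≤ r := by
  obtain ⟨κ, _, A, B, rfl, hr⟩ := h
  exact le_trans (by positivity) hr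

theorem Rk.mono {r r' : ℝ} {R : Matrix m n K} (h : Rk r R) (hr : r ≤ r') : Rk r' R := by
  obtain ⟨κ, i, A, B, e, h1⟩ := h
  exact ⟨κ, i, A, B, e, h1.trans hr⟩

theorem Rk.zero : Rk 0 (0 : Matrix m n K) :=
  ⟨Empty, inferInstance, 0, 0, by simp, by simp⟩

theorem Rk.add {r r' : ℝ} {R R' : Matrix m n K} (h : Rk r R) (h' : Rk r' R') :
    Rk (r + r') (R + R') := by
  obtain ⟨κ, i, A, B, rfl, h1⟩ := h
  obtain ⟨κ', i', A', B', rfl, h1'⟩ := h'
  refine ⟨κ ⊕ κ', inferInstance, Matrix.fromCols A A', Matrix.fromRows B B', ?_, ?_⟩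
  · rw [Matrix.fromCols_mul_fromRows]
  · rw [Fintype.card_sum]
    push_cast
    exact add_le_add h1 h1'

theorem Rk.mul_right {r : ℝ} {R : Matrix m n K} (h : Rk r R) (B : Matrix n k K) :
    Rk r (R * B) := by
  obtain ⟨κ, i, A, B', rfl, h1⟩ := h
  exact ⟨κ, i, A, B' * B, by rw [Matrix.mul_assoc], h1⟩

theorem Rk.mul_left {r : ℝ} {R : Matrix m n K} (h : Rk r R) (B : Matrix k m K) :
    Rk r (B * R) := by
  obtain ⟨κ, i, A, B', rfl, h1⟩ := h
  exact ⟨κ, i, B * A, B', by rw [Matrix.mul_assoc], h1⟩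

theorem Rk.submatrix {r : ℝ} {R : Matrix m n K} (h : Rk r R) (e : m' → m) (f : n' → n) :
    Rk r (R.submatrix e f) := by
  obtain ⟨κ, i, A, B, rfl, h1⟩ := h
  refine ⟨κ, i, A.submatrix e id, B.submatrix id f, ?_, h1⟩
  ext x y
  simp [Matrix.mul_apply]

/-- A matrix all of whose nonzero rows are in `E`. -/
theorem Rk.of_rows (E : Finset m) (R : Matrix m n K) (h : ∀ x y, R x y ≠ 0 → x ∈ E) :
    Rk E.card R := by
  classical
  refine ⟨E, inferInstance, Matrix.of fun x e => if x = e.1 then 1 else 0,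
    Matrix.of fun e y => R e.1 y, ?_, by simp⟩
  ext x y
  rw [Matrix.mul_apply]
  simp only [Matrix.of_apply]
  by_cases hx : x ∈ E
  · rw [Finset.sum_eq_single (⟨x, hx⟩ : E)]
    · simp
    · intro b _ hb
      rw [if_neg, zero_mul]
      intro h2
      exact hb (Subtype.ext h2.symm)
    · simp
  · have h0 : R x y = 0 := by
      by_contra hne
      exact hx (h x y hne)
    rw [h0]
    symm
    refine Finset.sum_eq_zero fun b _ => ?_
    rw [if_neg, zero_mul]
    intro h2
    exact hx (h2 ▸ b.2)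

theorem Rk.of_cols (E : Finset n) (R : Matrix m n K) (h : ∀ x y, R x y ≠ 0 → y ∈ E) :
    Rk E.card R := by
  classical
  refine ⟨E, inferInstance, Matrix.of fun x e => R x e.1,
    Matrix.of fun e y => if y = e.1 then 1 else 0, ?_, by simp⟩
  ext x y
  rw [Matrix.mul_apply]
  simp only [Matrix.of_apply]
  by_cases hy : y ∈ E
  · rw [Finset.sum_eq_single (⟨y, hy⟩ : E)]
    · simp
    · intro b _ hb
      rw [if_neg, mul_zero]
      intro h2
      exact hb (Subtype.ext h2.symm)
    · simp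
  · have h0 : R x y = 0 := by
      by_contra hne
      exact hy (h x y hne)
    rw [h0]
    symm
    refine Finset.sum_eq_zero fun b _ => ?_
    rw [if_neg, mul_zero]
    intro h2
    exact hy (h2 ▸ b.2)

open Classical in
/-- `T` is the sum of a matrix with at most `D` nonzero entries in each row and of a matrix of
rank at most `r`. -/
def RS (D : ℝ) (r : ℝ) (T : Matrix m n K) : Prop :=
  ∃ S R : Matrix m n K, T = S + R ∧ Rk r R ∧
    ∀ x, ((Finset.univ.filter fun y => S x y ≠ 0).card : ℝ) ≤ D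

theorem RS.mono {D D' : ℝ} {r r' : ℝ} {T : Matrix m n K} (h : RS D r T) (hD : D ≤ D')
    (hr : r ≤ r') : RS D' r' T := by
  obtain ⟨S, R, e, h1, h2⟩ := h
  exact ⟨S, R, e, h1.mono hr, fun x => (h2 x).trans hD⟩

theorem RS.mul {D D' : ℝ} {r r' : ℝ} {T : Matrix m n K} {T' : Matrix n k K}
    (h : RS D r T) (h' : RS D' r' T') (hD' : 0 ≤ D') : RS (D * D') (r + r') (T * T') := by
  classical
  obtain ⟨S, R, rfl, hR, hS⟩ := h
  obtain ⟨S', R', rfl, hR', hS'⟩ := h'
  refine ⟨S * S', R * (S' + R') + S * R', ?_, ?_, ?_⟩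
  · rw [Matrix.add_mul, Matrix.mul_add S]
    abel
  · exact (hR.mul_right _).add (hR'.mul_left _)
  · intro x
    have h1 : (Finset.univ.filter fun y => (S * S') x y ≠ 0) ⊆
        (Finset.univ.filter fun y => S x y ≠ 0).biUnion fun y =>
          Finset.univ.filter fun z => S' y z ≠ 0 := by
      intro z hz
      rw [Finset.mem_filter, Matrix.mul_apply] at hz
      obtain ⟨y, -, hy⟩ := Finset.exists_ne_zero_of_sum_ne_zero hz.2
      rw [Finset.mem_biUnion]
      exact ⟨y, by simpa using left_ne_zero_of_mul hy, by simpa using right_ne_zero_of_mul hy⟩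
    have h2 : ((Finset.univ.filter fun y => (S * S') x y ≠ 0).card : ℝ) ≤
        ∑ y ∈ (Finset.univ.filter fun y => S x y ≠ 0),
          ((Finset.univ.filter fun z => S' y z ≠ 0).card : ℝ) := by
      exact_mod_cast (Finset.card_le_card h1).trans Finset.card_biUnion_le
    refine h2.trans ?_
    have h3 : ∑ y ∈ (Finset.univ.filter fun y => S x y ≠ 0),
          ((Finset.univ.filter fun z => S' y z ≠ 0).card : ℝ) ≤
        ∑ _y ∈ (Finset.univ.filter fun y => S x y ≠ 0), D' :=
      Finset.sum_le_sum fun y _ => by convert hS' y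
    refine h3.trans ?_
    rw [Finset.sum_const, nsmul_eq_mul]
    refine mul_le_mul_of_nonneg_right ?_ hD'
    convert hS x

theorem RS.submatrix {D : ℝ} {r : ℝ} {T : Matrix m n K} (h : RS D r T) (e : m' → m)
    (f : n' → n) (hf : Function.Injective f) : RS D r (T.submatrix e f) := by
  classical
  obtain ⟨S, R, rfl, hR, hS⟩ := h
  refine ⟨S.submatrix e f, R.submatrix e f, by ext; simp, hR.submatrix e f, fun x => ?_⟩
  refine le_trans ?_ (hS (e x))
  norm_cast
  refine Finset.card_le_card_of_injOn f ?_ hf.injOn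
  intro y hy
  rw [Finset.mem_coe, Finset.mem_filter] at hy ⊢
  exact ⟨Finset.mem_univ _, hy.2⟩

theorem RS.add_rk {D : ℝ} {r r' : ℝ} {T T' : Matrix m n K} (h : RS D r T) (h' : Rk r' T') :
    RS D (r + r') (T + T') := by
  obtain ⟨S, R, rfl, hR, hS⟩ := h
  exact ⟨S, R + T', by rw [add_assoc], hR.add h', hS⟩

end Pool.Agent.W967.Rig
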