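import Pool.Agent.W967.Rig.Basic

set_option autoImplicit false
set_option linter.unusedSectionVars false

/-!
# Concentration of additive weights and graded matrices
-/

namespace Pool.Agent.W967.Rig

open Matrix Finset

theorem mgf_one {A : Type} [Fintype A] (g : A → ℝ) {M : ℝ} (hM : 0 < M) (h : ∀ a, |g a| ≤ M)
    (h0 : ∑ a, g a = 0) (l : ℝ) :
    ∑ a, Real.exp (l * g a) ≤ Fintype.card A * Real.exp (l ^ 2 * M ^ 2 / 2) := by
  have h1 : ∀ a, Real.exp (l * g a) ≤ Real.cosh (l * M) + g a / M * Real.sinh (l * M) := by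
    intro a
    have ha := h a
    rw [abs_le] at ha
    have h2 := convexOn_exp.2 (Set.mem_univ (l * M)) (Set.mem_univ (-(l * M)))
      (show 0 ≤ (M + g a) / (2 * M) from div_nonneg (by linarith) (by positivity))
      (show 0 ≤ (M - g a) / (2 * M) from div_nonneg (by linarith) (by positivity))
      (by field_simp; ring)
    simp only [smul_eq_mul] at h2
    have h3 : (M + g a) / (2 * M) * (l * M) + (M - g a) / (2 * M) * (-(l * M)) = l * g a := by
      field_simp
      ring
    rw [h3] at h2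
    rw [Real.cosh_eq, Real.sinh_eq]
    refine h2.trans (le_of_eq ?_)
    field_simp
    ring
  calc ∑ a, Real.exp (l * g a) ≤ ∑ a, (Real.cosh (l * M) + g a / M * Real.sinh (l * M)) :=
        Finset.sum_le_sum fun a _ => h1 a
    _ = Fintype.card A * Real.cosh (l * M) := by
        rw [Finset.sum_add_distrib, Finset.sum_const, Finset.card_univ, nsmul_eq_mul,
          ← Finset.sum_mul, ← Finset.sum_div, h0]
        simp
    _ ≤ Fintype.card A * Real.exp (l ^ 2 * M ^ 2 / 2) := by
        refine mul_le_mul_of_nonneg_left ?_ (by positivity)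
        have := Real.cosh_le_exp_half_sq (l * M)
        rwa [mul_pow] at this

variable {ι : Type} [Fintype ι] [DecidableEq ι] {α : ι → Type} [∀ i, Fintype (α i)]

theorem mgf_pi (g : ∀ i, α i → ℝ) {M : ℝ} (hM : 0 < M)
    (h : ∀ i a, |g i a| ≤ M) (h0 : ∀ i, ∑ a, g i a = 0) (l : ℝ) :
    ∑ x : (∀ i, α i), Real.exp (l * ∑ i, g i (x i)) ≤
      Fintype.card (∀ i, α i) * Real.exp (l ^ 2 * M ^ 2 * Fintype.card ι / 2) := by
  classical
  have h1 : ∀ x : (∀ i, α i), Real.exp (l * ∑ i, g i (x i)) = ∏ i, Real.exp (l * g i (x i)) := by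
    intro x
    rw [Finset.mul_sum, Real.exp_sum]
  have h2 := Finset.prod_univ_sum (fun i => (Finset.univ : Finset (α i)))
    (fun i a => Real.exp (l * g i a))
  rw [Fintype.piFinset_univ] at h2
  rw [Finset.sum_congr rfl (fun x _ => h1 x)]
  rw [← h2]
  have hc : (Fintype.card (∀ i, α i) : ℝ) = ∏ i, (Fintype.card (α i) : ℝ) := by
    rw [Fintype.card_pi]
    push_cast
    rfl
  calc ∏ i, ∑ a, Real.exp (l * g i a)
      ≤ ∏ i, ((Fintype.card (α i) : ℝ) * Real.exp (l ^ 2 * M ^ 2 / 2)) := by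
        refine Finset.prod_le_prod (fun i _ => by positivity) fun i _ => ?_
        exact mgf_one (g i) hM (h i) (h0 i) l
    _ = _ := by
        rw [Finset.prod_mul_distrib, Finset.prod_const, ← Real.exp_nat_mul, hc,
          Finset.card_univ]
        congr 2
        ring

theorem tail (g : ∀ i, α i → ℝ) {M k : ℝ} (hM : 0 < M)
    (h : ∀ i a, |g i a| ≤ M) (h0 : ∀ i, ∑ a, g i a = 0) (hk : (Fintype.card ι : ℝ) ≤ k)
    (hk0 : 0 < k) {t : ℝ} (ht : 0 ≤ t) :
    ((Finset.univ.filter fun x : (∀ i, α i) => t < ∑ i, g i (x i)).card : ℝ) ≤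
      Fintype.card (∀ i, α i) * Real.exp (-(t ^ 2 / (2 * M ^ 2 * k))) := by
  set l := t / (M ^ 2 * k) with hl
  have hl0 : 0 ≤ l := by positivity
  have h1 := mgf_pi g hM h h0 l
  set B := Finset.univ.filter fun x : (∀ i, α i) => t < ∑ i, g i (x i) with hB
  have h2 : (B.card : ℝ) * Real.exp (l * t) ≤
      ∑ x : (∀ i, α i), Real.exp (l * ∑ i, g i (x i)) := by
    rw [← nsmul_eq_mul, ← Finset.sum_const]
    refine (Finset.sum_le_sum (g := fun x : (∀ i, α i) => Real.exp (l * ∑ i, g i (x i))) ?_).trans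
      (Finset.sum_le_sum_of_subset_of_nonneg (Finset.filter_subset _ _) fun _ _ _ => by positivity)
    intro x hx
    rw [hB, Finset.mem_filter] at hx
    exact Real.exp_le_exp.2 (mul_le_mul_of_nonneg_left hx.2.le hl0)
  have h3 : (B.card : ℝ) * Real.exp (l * t) ≤
      Fintype.card (∀ i, α i) * Real.exp (l ^ 2 * M ^ 2 * k / 2) := by
    refine (h2.trans h1).trans (mul_le_mul_of_nonneg_left (Real.exp_le_exp.2 ?_) (by positivity))
    have : 0 ≤ l ^ 2 * M ^ 2 / 2 := by positivity
    nlinarith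
  have h4 : Real.exp (l ^ 2 * M ^ 2 * k / 2) =
      Real.exp (-(t ^ 2 / (2 * M ^ 2 * k))) * Real.exp (l * t) := by
    rw [← Real.exp_add]
    congr 1
    rw [hl]
    field_simp
    ring
  rw [h4, ← mul_assoc] at h3
  exact le_of_mul_le_mul_right h3 (Real.exp_pos _)

/-- The exceptional set of a weight. -/
theorem exists_exc (φ : ∀ i, α i → ℝ) {M k : ℝ} (hM : 0 < M)
    (h : ∀ i a, 0 ≤ φ i a ∧ φ i a ≤ M) (hk : (Fintype.card ι : ℝ) ≤ k)
    (hk0 : 0 < k) {s : ℝ} (hs : 0 ≤ s) :
    ∃ E : Finset (∀ i, α i),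
      (E.card : ℝ) ≤ 2 * Fintype.card (∀ i, α i) * Real.exp (-(s ^ 2 / (8 * M ^ 2 * k))) ∧
      ∀ x y, x ∉ E → y ∉ E → ∑ i, φ i (x i) - ∑ i, φ i (y i) ≤ s := by
  classical
  by_cases hne : ∀ i, Nonempty (α i)
  swap
  · push Not at hne
    obtain ⟨i, hi⟩ := hne
    refine ⟨∅, by simp; positivity, fun x => ?_⟩
    exact (IsEmpty.false (x i)).elim
  let mn : ι → ℝ := fun i => (∑ a, φ i a) / Fintype.card (α i)
  have hcard : ∀ i, (0 : ℝ) < Fintype.card (α i) := fun i => by exact_mod_cast Fintype.card_pos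
  let g : ∀ i, α i → ℝ := fun i a => φ i a - mn i
  have hmn0 : ∀ i, 0 ≤ mn i := fun i =>
    div_nonneg (Finset.sum_nonneg fun a _ => (h i a).1) (hcard i).le
  have hmn1 : ∀ i, mn i ≤ M := fun i => by
    rw [div_le_iff₀ (hcard i)]
    calc ∑ a, φ i a ≤ ∑ _a : α i, M := Finset.sum_le_sum fun a _ => (h i a).2
      _ = M * Fintype.card (α i) := by simp [mul_comm]
  have hg1 : ∀ i a, |g i a| ≤ M := by
    intro i a
    rw [abs_le]
    have := h i a
    have := hmn0 i
    have := hmn1 i
    constructor <;> simp only [g] <;> linarith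
  have hg0 : ∀ i, ∑ a, g i a = 0 := by
    intro i
    have := (hcard i).ne'
    simp only [g, mn, Finset.sum_sub_distrib, Finset.sum_const, Finset.card_univ, nsmul_eq_mul]
    field_simp
    ring
  have ht : 0 ≤ s / 2 := by positivity
  have h1 := tail g hM hg1 hg0 hk hk0 ht
  have h2 := tail (fun i a => -g i a) hM (fun i a => by rw [abs_neg]; exact hg1 i a)
    (fun i => by rw [Finset.sum_neg_distrib, hg0 i, neg_zero]) hk hk0 ht
  have e1 : (s / 2) ^ 2 / (2 * M ^ 2 * k) = s ^ 2 / (8 * M ^ 2 * k) := by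
    field_simp
    ring
  rw [e1] at h1 h2
  refine ⟨(Finset.univ.filter fun x : (∀ i, α i) => s / 2 < ∑ i, g i (x i)) ∪
    (Finset.univ.filter fun x : (∀ i, α i) => s / 2 < ∑ i, -g i (x i)), ?_, ?_⟩
  · have h3 := Finset.card_union_le
      (Finset.univ.filter fun x : (∀ i, α i) => s / 2 < ∑ i, g i (x i))
      (Finset.univ.filter fun x : (∀ i, α i) => s / 2 < ∑ i, -g i (x i))
    have h4 : (((Finset.univ.filter fun x : (∀ i, α i) => s / 2 < ∑ i, g i (x i)) ∪
      (Finset.univ.filter fun x : (∀ i, α i) => s / 2 < ∑ i, -g i (x i))).card : ℝ) ≤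
      (Finset.univ.filter fun x : (∀ i, α i) => s / 2 < ∑ i, g i (x i)).card +
      (Finset.univ.filter fun x : (∀ i, α i) => s / 2 < ∑ i, -g i (x i)).card := by
      exact_mod_cast h3
    linarith
  · intro x y hx hy
    simp only [Finset.mem_union, Finset.mem_filter, Finset.mem_univ, true_and, not_or,
      not_lt] at hx hy
    have e2 : ∑ i, φ i (x i) - ∑ i, φ i (y i) = ∑ i, g i (x i) + ∑ i, -g i (y i) := by
      simp only [g, Finset.sum_sub_distrib, Finset.sum_neg_distrib]
      ring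
    rw [e2]
    linarith [hx.1, hy.2]

variable {K : Type*} [Field K]

open Classical in
/-- The part of `T` outside of the exceptional set. -/
noncomputable def cut {X Γ : Type} (E : Finset X) (T : Matrix (X × Γ) (X × Γ) K) :
    Matrix (X × Γ) (X × Γ) K :=
  Matrix.of fun p q => if p.1 ∈ E ∨ q.1 ∈ E then 0 else T p q

theorem cut_ne {X Γ : Type} {E : Finset X} {T : Matrix (X × Γ) (X × Γ) K} {p q : X × Γ}
    (h : cut E T p q ≠ 0) : p.1 ∉ E ∧ q.1 ∉ E ∧ T p q ≠ 0 := by
  classical
  rw [cut, Matrix.of_apply] at h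
  split_ifs at h with h1
  · exact absurd rfl h
  · rw [not_or] at h1
    exact ⟨h1.1, h1.2, h⟩

theorem rk_sub_cut {X Γ : Type} [Fintype X] [Fintype Γ] (E : Finset X)
    (T : Matrix (X × Γ) (X × Γ) K) :
    Rk (2 * (E.card * Fintype.card Γ)) (T - cut E T) := by
  classical
  let R₁ : Matrix (X × Γ) (X × Γ) K := Matrix.of fun p q => if p.1 ∈ E then T p q else 0
  let R₂ : Matrix (X × Γ) (X × Γ) K :=
    Matrix.of fun p q => if p.1 ∉ E ∧ q.1 ∈ E then T p q else 0
  have h0 : T - cut E T = R₁ + R₂ := by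
    ext p q
    simp only [Matrix.sub_apply, Matrix.add_apply, cut, R₁, R₂, Matrix.of_apply]
    by_cases hx : p.1 ∈ E <;> by_cases hy : q.1 ∈ E <;> simp [hx, hy]
  have hc : (((E ×ˢ (Finset.univ : Finset Γ)).card : ℕ) : ℝ) = E.card * Fintype.card Γ := by
    rw [Finset.card_product, Finset.card_univ]
    push_cast
    rfl
  have h1 : Rk (E.card * Fintype.card Γ : ℝ) R₁ := by
    rw [← hc]
    refine Rk.of_rows _ _ fun x y hxy => ?_
    simp only [R₁, Matrix.of_apply] at hxy
    rw [Finset.mem_product]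
    refine ⟨?_, Finset.mem_univ _⟩
    by_contra hn
    rw [if_neg hn] at hxy
    exact hxy rfl
  have h2 : Rk (E.card * Fintype.card Γ : ℝ) R₂ := by
    rw [← hc]
    refine Rk.of_cols _ _ fun x y hxy => ?_
    simp only [R₂, Matrix.of_apply] at hxy
    rw [Finset.mem_product]
    refine ⟨?_, Finset.mem_univ _⟩
    by_contra hn
    rw [if_neg fun hh => hn hh.2] at hxy
    exact hxy rfl
  rw [h0]
  exact (h1.add h2).mono (le_of_eq (by ring))

/-! ### Hamming balls -/

theorem ball_le [∀ i, DecidableEq (α i)] (x : ∀ i, α i) {s l k : ℝ} {d : ℕ}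
    (hl : 0 < l) (hl1 : l ≤ 1) (hd : ∀ i, Fintype.card (α i) ≤ d) (hk : (Fintype.card ι : ℝ) ≤ k)
    :
    ((Finset.univ.filter fun y : (∀ i, α i) => (hammingDist x y : ℝ) ≤ s).card : ℝ) ≤
      Real.exp (s * Real.log (1 / l) + l * d * k) := by
  classical
  have hL : 0 ≤ Real.log (1 / l) := Real.log_nonneg (by rw [le_div_iff₀ hl]; linarith)
  have hlog : Real.log (1 / l) = -Real.log l := by rw [one_div, Real.log_inv]
  have h1 : ((Finset.univ.filter fun y : (∀ i, α i) => (hammingDist x y : ℝ) ≤ s).card : ℝ) ≤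
      ∑ y : (∀ i, α i), Real.exp (s * Real.log (1 / l)) * l ^ hammingDist x y := by
    rw [Finset.card_eq_sum_ones]
    push_cast
    refine (Finset.sum_le_sum (g := fun y : (∀ i, α i) =>
      Real.exp (s * Real.log (1 / l)) * l ^ hammingDist x y) ?_).trans
      (Finset.sum_le_sum_of_subset_of_nonneg (Finset.filter_subset _ _) fun _ _ _ => by positivity)
    intro y hy
    rw [Finset.mem_filter] at hy
    have e1 : l ^ hammingDist x y = Real.exp ((hammingDist x y : ℝ) * Real.log l) := by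
      rw [Real.exp_nat_mul, Real.exp_log hl]
    rw [e1, ← Real.exp_add, hlog]
    rw [← Real.exp_zero]
    refine Real.exp_le_exp.2 ?_
    rw [hlog] at hL
    nlinarith [hy.2]
  refine h1.trans ?_
  rw [← Finset.mul_sum, Real.exp_add]
  refine mul_le_mul_of_nonneg_left ?_ (by positivity)
  have h2 : ∀ y : (∀ i, α i), l ^ hammingDist x y = ∏ i, (if x i ≠ y i then l else 1) := by
    intro y
    rw [Finset.prod_ite, Finset.prod_const, Finset.prod_const_one, mul_one]
    rfl
  rw [Finset.sum_congr rfl fun y _ => h2 y]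
  have h3 := Finset.prod_univ_sum (fun i => (Finset.univ : Finset (α i)))
    (fun i a => if x i ≠ a then l else (1 : ℝ))
  rw [Fintype.piFinset_univ] at h3
  rw [← h3]
  have h4 : ∀ i, ∑ a, (if x i ≠ a then l else (1 : ℝ)) ≤ Real.exp (l * d) := by
    intro i
    have h5 : ∑ a, (if x i ≠ a then l else (1 : ℝ)) ≤ 1 + l * Fintype.card (α i) := by
      have : ∀ a, (if x i ≠ a then l else (1 : ℝ)) ≤ (if a = x i then 1 else 0) + l := by
        intro a
        by_cases hxa : x i = a
        · simp [hxa, hl.le]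
        · simp [hxa, Ne.symm hxa]
      refine (Finset.sum_le_sum fun a _ => this a).trans (le_of_eq ?_)
      rw [Finset.sum_add_distrib]
      simp [mul_comm]
    refine h5.trans ?_
    have h6 : l * Fintype.card (α i) ≤ l * d := by
      refine mul_le_mul_of_nonneg_left ?_ hl.le
      exact_mod_cast hd i
    have h7 := Real.add_one_le_exp (l * d)
    linarith
  calc ∏ i, ∑ a, (if x i ≠ a then l else (1 : ℝ)) ≤ ∏ _i : ι, Real.exp (l * d) :=
        Finset.prod_le_prod (fun i _ => Finset.sum_nonneg fun a _ => by split_ifs <;> positivity)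
          fun i _ => h4 i
    _ = Real.exp (Fintype.card ι * (l * d)) := by
        rw [Finset.prod_const, ← Real.exp_nat_mul, Finset.card_univ]
    _ ≤ Real.exp (l * d * k) := by
        refine Real.exp_le_exp.2 ?_
        have : 0 ≤ l * d := by positivity
        nlinarith

end Pool.Agent.W967.Rig
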