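import Mathlib

set_option autoImplicit false
set_option linter.unusedSectionVars false

/-!
# Simultaneous triangularisation of circulants by a unitriangular matrix
-/

namespace Pool.Agent.W967.Rig

open Matrix Finset Polynomial

variable {K : Type*} [Field K]

/-- The matrix of the translation by `t`. -/
def Circ (K : Type*) [Field K] (n : ℕ) (t : ZMod n) : Matrix (ZMod n) (ZMod n) K :=
  Matrix.of fun a c => if a - c = t then 1 else 0

theorem circ_mul {n : ℕ} [NeZero n] (s t : ZMod n) :
    Circ K n s * Circ K n t = Circ K n (s + t) := by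
  ext a c
  rw [Matrix.mul_apply]
  simp only [Circ, Matrix.of_apply]
  rw [Finset.sum_eq_single (c + t)]
  · by_cases h : a - c = s + t
    · rw [if_pos h, if_pos, if_pos, one_mul]
      · ring
      · rw [show a - (c + t) = a - c - t by ring, h]
        ring
    · rw [if_neg h, if_neg, zero_mul]
      intro h1
      apply h
      rw [← h1]
      ring
  · intro l _ hl
    rw [if_neg (c := l - c = t), mul_zero]
    intro h
    apply hl
    rw [← h]
    ring
  · simp

theorem circ_zero {n : ℕ} [NeZero n] : Circ K n 0 = 1 := by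
  ext a c
  simp only [Circ, Matrix.of_apply, Matrix.one_apply, sub_eq_zero]

theorem circ_nat {n : ℕ} [NeZero n] (k : ℕ) : Circ K n (k : ZMod n) = Circ K n 1 ^ k := by
  induction k with
  | zero => simp [circ_zero]
  | succ k ih => rw [pow_succ, ← ih, circ_mul]; push_cast; rfl

/-- Partial products of linear factors. -/
noncomputable def np (r : ℕ → K) (j : ℕ) : K[X] := ∏ i ∈ range j, (X - C (r i))

theorem np_succ (r : ℕ → K) (j : ℕ) : np r (j + 1) = np r j * (X - C (r j)) :=
  Finset.prod_range_succ _ _

theorem np_monic (r : ℕ → K) (j : ℕ) : (np r j).Monic :=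
  monic_prod_of_monic _ _ fun i _ => monic_X_sub_C (r i)

theorem np_natDegree (r : ℕ → K) (j : ℕ) : (np r j).natDegree = j := by
  rw [np, natDegree_prod_of_monic _ _ fun i _ => monic_X_sub_C (r i)]
  simp

theorem exists_np (n : ℕ) (hn : 0 < n) (hs : (X ^ n - 1 : K[X]).Splits) :
    ∃ r : ℕ → K, np r n = X ^ n - 1 := by
  have hm : (X ^ n - 1 : K[X]).Monic := by
    have := monic_X_pow_sub_C (1 : K) hn.ne'
    simpa using this
  have hd : (X ^ n - 1 : K[X]).natDegree = n := by
    have := natDegree_X_pow_sub_C (n := n) (r := (1 : K))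
    simpa using this
  have h1 := hs.eq_prod_roots_of_monic hm
  have h2 := hs.natDegree_eq_card_roots
  rw [hd] at h2
  set s := (X ^ n - 1 : K[X]).roots with hs'
  have hlen : s.toList.length = n := by rw [Multiset.length_toList, ← h2]
  refine ⟨fun i => s.toList.getD i 0, ?_⟩
  have h3 : (s.map fun a => X - C a).prod = (s.toList.map fun a => X - C a).prod := by
    conv_lhs => rw [← Multiset.coe_toList s]
    rw [Multiset.map_coe, Multiset.prod_coe]
  rw [h1, h3, np]
  have h4 : ∀ (L : List K), ∏ i ∈ range L.length, (X - C (L.getD i 0)) =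
      (L.map fun a => X - C a).prod := by
    intro L
    induction L with
    | nil => simp
    | cons a L ih =>
      rw [List.length_cons, Finset.prod_range_succ', List.map_cons, List.prod_cons, ← ih,
        mul_comm]
      simp
  rw [← h4, hlen]

/-- The matrix of the coefficients of the partial products. -/
noncomputable def uM (n : ℕ) (r : ℕ → K) : Matrix (ZMod n) (ZMod n) K :=
  Matrix.of fun a c => (np r c.val).coeff a.val

theorem uM_upper {n : ℕ} (r : ℕ → K) (a c : ZMod n) (h : uM n r a c ≠ 0) : a.val ≤ c.val := by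
  by_contra hlt
  apply h
  rw [uM, Matrix.of_apply]
  refine coeff_eq_zero_of_natDegree_lt ?_
  rw [np_natDegree]
  omega

theorem uM_diag {n : ℕ} (r : ℕ → K) (a : ZMod n) : uM n r a a = 1 := by
  have := (np_monic r a.val).coeff_natDegree
  rwa [np_natDegree] at this

theorem uM_isUnit {n : ℕ} [NeZero n] (r : ℕ → K) : IsUnit (uM n r).det := by
  have h1 : (uM n r).BlockTriangular (fun a : ZMod n => a.val) := by
    intro a c h
    by_contra hne
    exact absurd (uM_upper r a c hne) (by simpa using h)
  obtain ⟨k, rfl⟩ : ∃ k, n = k + 1 := ⟨n - 1, by have := NeZero.ne n; omega⟩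
  have h2 : (uM (k + 1) r).det = 1 := by
    have h3 := Matrix.det_of_isUpperTriangular (m := Fin (k + 1)) (M := uM (k + 1) r)
      (fun a c h => h1 h)
    have h4 : ∏ i : Fin (k + 1), uM (k + 1) r i i = 1 :=
      Finset.prod_eq_one fun i _ => uM_diag (n := k + 1) r i
    exact h3.trans h4
  rw [h2]
  exact isUnit_one

/-- Bidiagonal matrices. -/
noncomputable def bM (n : ℕ) (r : ℕ → K) : Matrix (ZMod n) (ZMod n) K :=
  Matrix.of fun a c => (if a = c then r c.val else 0) + if a.val = c.val + 1 then 1 else 0

theorem bM_lower {n : ℕ} (r : ℕ → K) (a c : ZMod n) (h : bM n r a c ≠ 0) : c.val ≤ a.val := by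
  rw [bM, Matrix.of_apply] at h
  by_cases h1 : a = c
  · rw [h1]
  · rw [if_neg h1, zero_add] at h
    by_cases h2 : a.val = c.val + 1
    · omega
    · rw [if_neg h2] at h
      exact absurd rfl h

theorem circ_mul_uM {n : ℕ} [NeZero n] (r : ℕ → K) (hr : np r n = X ^ n - 1) :
    Circ K n 1 * uM n r = uM n r * bM n r := by
  ext a c
  rw [Matrix.mul_apply, Matrix.mul_apply]
  have hn : 0 < n := Nat.pos_of_ne_zero (NeZero.ne n)
  have h1 : ∑ j, Circ K n 1 a j * uM n r j c = uM n r (a - 1) c := by
    rw [Finset.sum_eq_single (a - 1)]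
    · simp [Circ]
    · intro j _ hj
      rw [Circ, Matrix.of_apply, if_neg, zero_mul]
      intro h
      apply hj
      rw [← h]
      ring
    · simp
  have h2 : ∑ j, uM n r a j * bM n r j c = uM n r a c * r c.val +
      if c.val + 1 < n then (np r (c.val + 1)).coeff a.val else 0 := by
    simp only [bM, Matrix.of_apply, mul_add, Finset.sum_add_distrib]
    congr 1
    · simp
    · split_ifs with hc
      · rw [Finset.sum_eq_single ((c.val + 1 : ℕ) : ZMod n)]
        · rw [ZMod.val_natCast_of_lt hc, if_pos rfl, mul_one, uM, Matrix.of_apply,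
            ZMod.val_natCast_of_lt hc]
        · intro j _ hj
          rw [if_neg, mul_zero]
          intro h
          apply hj
          rw [← h, ZMod.natCast_zmod_val]
        · simp
      · refine Finset.sum_eq_zero fun j _ => ?_
        rw [if_neg, mul_zero]
        intro h
        have := ZMod.val_lt j
        omega
  rw [h1, h2]
  have h3 := congrArg (fun P => P.coeff a.val) (np_succ r c.val)
  simp only [mul_sub, coeff_sub, coeff_mul_C] at h3
  -- the coefficient of `X * N_c`
  have h4 : (np r c.val * X).coeff a.val = if a.val = 0 then 0 else (np r c.val).coeff (a.val - 1) := by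
    rcases Nat.eq_zero_or_pos a.val with h | h
    · rw [h, if_pos rfl, coeff_mul_X_zero]
    · obtain ⟨k, hk⟩ : ∃ k, a.val = k + 1 := ⟨a.val - 1, by omega⟩
      rw [hk, coeff_mul_X, if_neg (by omega)]
      rfl
  rw [h4] at h3
  have h5 : uM n r a c = (np r c.val).coeff a.val := rfl
  have hclt := ZMod.val_lt c
  have halt := ZMod.val_lt a
  have h6 : (if c.val + 1 < n then (np r (c.val + 1)).coeff a.val else 0) =
      (np r (c.val + 1)).coeff a.val + if c.val + 1 = n ∧ a.val = 0 then 1 else 0 := by
    by_cases hc : c.val + 1 < n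
    · rw [if_pos hc, if_neg (by omega), add_zero]
    · have hc' : c.val + 1 = n := by omega
      rw [if_neg hc, hc', hr, coeff_sub, coeff_X_pow, if_neg (by omega), coeff_one]
      by_cases ha : a.val = 0
      · simp [ha]
      · simp [ha]
  rw [h6, h3, h5]
  by_cases ha : a.val = 0
  · have ha0 : a = 0 := (ZMod.val_eq_zero a).1 ha
    rw [if_pos ha]
    have h7 : (a - 1 : ZMod n).val = n - 1 := by
      obtain ⟨k, rfl⟩ : ∃ k, n = k + 1 := ⟨n - 1, by omega⟩
      rw [ha0, zero_sub]
      exact ZMod.val_neg_one k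
    rw [uM, Matrix.of_apply, h7]
    by_cases hc : c.val + 1 = n
    · rw [if_pos ⟨hc, ha⟩]
      have h8 : n - 1 = c.val := by omega
      have h9 := (np_monic r c.val).coeff_natDegree
      rw [np_natDegree] at h9
      rw [h8, h9]
      ring
    · rw [if_neg (by omega)]
      have h9 : (np r c.val).coeff (n - 1) = 0 := by
        refine coeff_eq_zero_of_natDegree_lt ?_
        rw [np_natDegree]
        omega
      rw [h9]
      ring
  · rw [if_neg ha, if_neg (by tauto)]
    have h7 : (a - 1 : ZMod n).val = a.val - 1 := by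
      have hn1 : 1 < n := by omega
      have : Fact (1 < n) := ⟨hn1⟩
      have h8 : (1 : ZMod n).val = 1 := ZMod.val_one n
      rw [ZMod.val_sub (by omega), h8]
    rw [uM, Matrix.of_apply, h7]
    ring

/-- **Triangularisation of the circulants.** -/
theorem exists_tri (n : ℕ) [NeZero n] (hs : (X ^ n - 1 : K[X]).Splits) :
    ∃ u : Matrix (ZMod n) (ZMod n) K, IsUnit u.det ∧ (∀ a c, u a c ≠ 0 → a.val ≤ c.val) ∧
      ∀ t a c, (u⁻¹ * Circ K n t * u) a c ≠ 0 → c.val ≤ a.val := by
  obtain ⟨r, hr⟩ := exists_np n (Nat.pos_of_ne_zero (NeZero.ne n)) hs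
  have hu := uM_isUnit (n := n) r
  refine ⟨uM n r, hu, uM_upper r, ?_⟩
  have h1 : ∀ k : ℕ, (uM n r)⁻¹ * Circ K n 1 ^ k * uM n r = bM n r ^ k := by
    intro k
    induction k with
    | zero => rw [pow_zero, pow_zero, Matrix.mul_one, Matrix.nonsing_inv_mul _ hu]
    | succ k ih =>
      rw [pow_succ, pow_succ, ← ih]
      rw [Matrix.mul_assoc ((uM n r)⁻¹ * Circ K n 1 ^ k), ← circ_mul_uM r hr]
      simp only [Matrix.mul_assoc]
  have h2 : ∀ k : ℕ, ∀ a c, (bM n r ^ k) a c ≠ 0 → c.val ≤ a.val := by
    intro k
    induction k with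
    | zero =>
      intro a c h
      rw [pow_zero, Matrix.one_apply] at h
      split_ifs at h with h3
      · rw [h3]
      · exact absurd rfl h
    | succ k ih =>
      intro a c h
      rw [pow_succ, Matrix.mul_apply] at h
      obtain ⟨z, -, hz⟩ := Finset.exists_ne_zero_of_sum_ne_zero h
      exact (bM_lower r z c (right_ne_zero_of_mul hz)).trans (ih a z (left_ne_zero_of_mul hz))
  intro t a c h
  rw [← ZMod.natCast_zmod_val t, circ_nat, h1] at h
  exact h2 _ a c h

end Pool.Agent.W967.Rig
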