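import Pool.Agent.W967.Rig.Toep
import Pool.Agent.W967.Rig.Cyc

set_option autoImplicit false
set_option linter.unusedSectionVars false

/-!
# The matrix of a convolution on a product of small cyclic groups and of digits
-/

namespace Pool.Agent.W967.Rig

open Matrix Finset Kronecker
open Pool.Agent.W966.Kron (tens tens_mul)

variable {K : Type*} [Field K]

theorem tens_one' {ι : Type} [Fintype ι] [DecidableEq ι] {α : ι → Type} [∀ i, Fintype (α i)]
    [∀ i, DecidableEq (α i)] : tens (fun i => (1 : Matrix (α i) (α i) K)) = 1 := by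
  ext x y
  rw [Matrix.one_apply]
  simp only [tens, Matrix.one_apply]
  by_cases h : x = y
  · simp [h]
  · rw [if_neg h]
    obtain ⟨j, hj⟩ := Function.ne_iff.1 h
    exact Finset.prod_eq_zero (Finset.mem_univ j) (if_neg hj)

section

variable {m p : ℕ} {ι : Type} [Fintype ι] [DecidableEq ι] (ns : ι → ℕ) [∀ i, NeZero (ns i)]
  {Γ J : Type} [Fintype Γ] [DecidableEq Γ] [Fintype J] [DecidableEq J]

theorem core [Fact p.Prime] [CharP K p] (θ : K)
    (hθ : Function.Injective (pt (p := p) (m := m) θ)) {l : ℕ} (hl : m ≤ 2 ^ l) {b : ℕ}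
    (hb : 3 * b ≤ p ^ m)
    (hspl : ∀ i, (Polynomial.X ^ (ns i) - 1 : Polynomial K).Splits) {M0 : ℕ} (hM0 : 0 < M0)
    (hns : ∀ i, ns i ≤ M0) (dig : Γ → J → Fin b) (hdig : Function.Injective dig)
    (Φ : (∀ i, ZMod (ns i)) → (J → ℤ) → K)
    {kH kJ : ℝ} (hkH : (Fintype.card ι : ℝ) ≤ kH) (hkH0 : 0 < kH)
    (hkJ : (Fintype.card (J × Fin m) : ℝ) ≤ kJ) (hkJ0 : 0 < kJ)
    {l1 s1 l2 s2 : ℝ} (hl1 : 0 < l1) (hl1' : l1 ≤ 1) (hs1 : 0 ≤ s1) (hl2 : 0 < l2)
    (hl2' : l2 ≤ 1) (hs2 : 0 ≤ s2) :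
    RS (Real.exp (s1 * Real.log (1 / l1) + l1 * M0 * kH) *
        (Real.exp (s2 * Real.log (1 / l2) + l2 * p * kJ) ^ (2 * l + 4) *
          Real.exp (s1 * Real.log (1 / l1) + l1 * M0 * kH) *
          Real.exp (s2 * Real.log (1 / l2) + l2 * p * kJ) ^ (2 * l + 4)) *
        Real.exp (s1 * Real.log (1 / l1) + l1 * M0 * kH))
      (12 * (Fintype.card (∀ i, ZMod (ns i)) * Fintype.card Γ) *
          Real.exp (-(s1 ^ 2 / (8 * M0 ^ 2 * kH))) +
        8 * (2 * l + 4 : ℕ) * (Fintype.card (J × Fin m → Fin p) *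
          Fintype.card (∀ i, ZMod (ns i))) * Real.exp (-(s2 ^ 2 / (8 * (5 * p) ^ 2 * kJ))))
      (Matrix.of fun P Q : (∀ i, ZMod (ns i)) × Γ =>
        Φ (P.1 - Q.1) (fun j => ((dig P.2 j : ℕ) : ℤ) - ((dig Q.2 j : ℕ) : ℤ))) := by
  classical
  have hp0 : 0 < p := (Fact.out : p.Prime).pos
  have hM0' : (0 : ℝ) < M0 := by exact_mod_cast hM0
  choose u hu1 hu2 hu3 using fun i => exists_tri (K := K) (ns i) (hspl i)
  set U : Matrix (∀ i, ZMod (ns i)) (∀ i, ZMod (ns i)) K := tens u with hU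
  set U' : Matrix (∀ i, ZMod (ns i)) (∀ i, ZMod (ns i)) K := tens (fun i => (u i)⁻¹) with hU'
  have hUU' : U * U' = 1 := by
    rw [hU, hU', tens_mul]
    have : (fun i => u i * (u i)⁻¹) = fun i => 1 := by
      funext i
      exact Matrix.mul_nonsing_inv _ (hu1 i)
    rw [this, tens_one']
  have hUdet : IsUnit U.det := by
    have h2 : U.det * U'.det = 1 := by rw [← Matrix.det_mul, hUU', Matrix.det_one]
    exact IsUnit.of_mul_eq_one _ h2
  have hUinv : U⁻¹ = U' := Matrix.inv_eq_right_inv hUU'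
  have hval : ∀ i (a : ZMod (ns i)), ((a.val : ℕ) : ℝ) ≤ M0 := fun i a => by
    exact_mod_cast ((ZMod.val_lt a).le.trans (hns i))
  have hcard : ∀ i, Fintype.card (ZMod (ns i)) ≤ M0 := fun i => by
    rw [ZMod.card]
    exact hns i
  have hGr : Gr (M0 : ℝ) U := by
    refine gr_tens u (fun i a => M0 - ((a.val : ℕ) : ℝ)) (fun i a =>
      ⟨by linarith [hval i a], by
        have : (0 : ℝ) ≤ (a.val : ℕ) := by positivity
        linarith⟩) fun i a c hne => ?_
    by_cases hac : a = c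
    · exact Or.inl hac
    · right
      have h1 := hu2 i a c hne
      have h2 : a.val ≠ c.val := fun h => hac (ZMod.val_injective _ h)
      have h3 : a.val + 1 ≤ c.val := by omega
      have h4 : ((a.val : ℕ) : ℝ) + 1 ≤ (c.val : ℕ) := by exact_mod_cast h3
      linarith
  have rsU := rs_kron' hM0' hGr hkH hkH0 hcard hl1 hl1' hs1 Γ
  have rsU' := rs_kron' hM0' (hGr.inv hUdet) hkH hkH0 hcard hl1 hl1' hs1 Γ
  let B : (∀ i, ZMod (ns i)) → Matrix (∀ i, ZMod (ns i)) (∀ i, ZMod (ns i)) K := fun t =>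
    tens fun i => (u i)⁻¹ * Circ K (ns i) (t i) * u i
  have hB : ∀ t α β, B t α β ≠ 0 → ∀ i, (β i).val ≤ (α i).val := by
    intro t α β hne i
    exact hu3 i (t i) _ _ (Finset.prod_ne_zero_iff.1 hne i (mem_univ i))
  have hUBU : ∀ t, U * B t * U' = tens fun i => Circ K (ns i) (t i) := by
    intro t
    rw [hU, hU']
    simp only [B]
    rw [tens_mul, tens_mul]
    congr 1
    funext i
    rw [Matrix.mul_assoc, Matrix.mul_assoc ((u i)⁻¹ * _), Matrix.mul_nonsing_inv _ (hu1 i),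
      Matrix.mul_one, ← Matrix.mul_assoc, Matrix.mul_nonsing_inv _ (hu1 i), Matrix.one_mul]
  let T : (∀ i, ZMod (ns i)) → Matrix Γ Γ K := fun t => Matrix.of fun g h =>
    Φ t (fun j => ((dig g j : ℕ) : ℤ) - ((dig h j : ℕ) : ℤ))
  set Mid : Matrix ((∀ i, ZMod (ns i)) × Γ) ((∀ i, ZMod (ns i)) × Γ) K :=
    ∑ t, B t ⊗ₖ T t with hMid
  have hM : (Matrix.of fun P Q : (∀ i, ZMod (ns i)) × Γ =>
        Φ (P.1 - Q.1) (fun j => ((dig P.2 j : ℕ) : ℤ) - ((dig Q.2 j : ℕ) : ℤ))) =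
      (U ⊗ₖ (1 : Matrix Γ Γ K)) * Mid * (U' ⊗ₖ (1 : Matrix Γ Γ K)) := by
    rw [hMid, Matrix.mul_sum, Matrix.sum_mul]
    have h1 : ∀ t, (U ⊗ₖ (1 : Matrix Γ Γ K)) * (B t ⊗ₖ T t) * (U' ⊗ₖ (1 : Matrix Γ Γ K)) =
        (tens fun i => Circ K (ns i) (t i)) ⊗ₖ T t := by
      intro t
      rw [← Matrix.mul_kronecker_mul, ← Matrix.mul_kronecker_mul, hUBU, Matrix.one_mul,
        Matrix.mul_one]
    rw [Finset.sum_congr rfl fun t _ => h1 t]
    ext P Q
    rw [Matrix.sum_apply, Finset.sum_eq_single (P.1 - Q.1)]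
    · rw [Matrix.kroneckerMap_apply]
      simp [tens, Circ, T]
    · intro t _ ht
      rw [Matrix.kroneckerMap_apply]
      obtain ⟨i, hi⟩ := Function.ne_iff.1 ht
      have : tens (fun i => Circ K (ns i) (t i)) P.1 Q.1 = 0 := by
        refine Finset.prod_eq_zero (mem_univ i) ?_
        change (if P.1 i - Q.1 i = t i then (1 : K) else 0) = 0
        rw [if_neg]
        intro h
        exact hi h.symm
      rw [this, zero_mul]
    · intro h
      exact absurd (mem_univ _) h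
  -- the exceptional set
  obtain ⟨E, hE, hE'⟩ := exists_exc (fun i (a : ZMod (ns i)) => ((a.val : ℕ) : ℝ)) hM0'
    (fun i a => ⟨by positivity, hval i a⟩) hkH hkH0 hs1
  have hBham : ∀ t α β, α ∉ E → β ∉ E → B t α β ≠ 0 → (hammingDist α β : ℝ) ≤ s1 := by
    intro t α β hα hβ hne
    refine le_trans ?_ (hE' α β hα hβ)
    rw [hammingDist_eq_sum, ← Finset.sum_sub_distrib]
    refine Finset.sum_le_sum fun i _ => ?_
    have h1 := hB t α β hne i
    by_cases h2 : α i = β i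
    · simp [h2]
    · rw [if_pos h2]
      have h3 : (α i).val ≠ (β i).val := fun h => h2 (ZMod.val_injective _ h)
      have h4 : (β i).val + 1 ≤ (α i).val := by omega
      have h5 : (((β i).val : ℕ) : ℝ) + 1 ≤ ((α i).val : ℕ) := by exact_mod_cast h4
      linarith
  -- the middle matrix
  let DD : Matrix ((J × Fin m → Fin p) × (∀ i, ZMod (ns i)))
      ((J × Fin m → Fin p) × (∀ i, ZMod (ns i))) K := Matrix.of fun P Q =>
    if P.1 = Q.1 ∧ P.2 ∉ E ∧ Q.2 ∉ E then ∑ t, B t P.2 Q.2 * gh (b := b) θ (Φ t) P.1 else 0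
  have rsD : RS (Real.exp (s1 * Real.log (1 / l1) + l1 * M0 * kH)) 0 DD := by
    refine ⟨DD, 0, by simp, Rk.zero, ?_⟩
    rintro ⟨a, α⟩
    refine le_trans ?_ (ball_le α hl1 hl1' hcard hkH (s := s1))
    norm_cast
    refine Finset.card_le_card_of_injOn (fun q => q.2) ?_ ?_
    · rintro ⟨a', β⟩ hq
      rw [Finset.mem_coe, Finset.mem_filter] at hq ⊢
      have hne := hq.2
      simp only [DD, Matrix.of_apply] at hne
      split_ifs at hne with h1
      · obtain ⟨t, -, ht⟩ := Finset.exists_ne_zero_of_sum_ne_zero hne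
        exact ⟨mem_univ _, hBham t α β h1.2.1 h1.2.2 (left_ne_zero_of_mul ht)⟩
      · exact absurd rfl hne
    · rintro ⟨a', β⟩ hq ⟨a'', β'⟩ hq' heq
      rw [Finset.mem_coe, Finset.mem_filter] at hq hq'
      have hne := hq.2
      have hne' := hq'.2
      simp only [DD, Matrix.of_apply] at hne hne'
      split_ifs at hne with h1
      · split_ifs at hne' with h2
        · simp only at heq
          rw [heq, ← h1.1, ← h2.1]
        · exact absurd rfl hne'
      · exact absurd rfl hne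
  have hp5 : (0 : ℝ) < 5 * p := by positivity
  have hchV : Ch (5 * p) (2 * l + 4) (V p m θ) := ch_V θ hθ hl
  have hcardp : ∀ _ : J × Fin m, Fintype.card (Fin p) ≤ p := fun _ => by simp
  have rsW := rs_ch hp5 (ch_tp (J := J) hchV) hkJ hkJ0 hcardp hl2 hl2' hs2 (∀ i, ZMod (ns i))
  have rsW' := rs_ch hp5 (ch_tp (J := J) hchV.inv) hkJ hkJ0 hcardp hl2 hl2' hs2
    (∀ i, ZMod (ns i))
  let e : ((∀ i, ZMod (ns i)) × Γ) → (J × Fin m → Fin p) × (∀ i, ZMod (ns i)) := fun P =>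
    (emb p m fun j => ⟨(dig P.2 j : ℕ) + (b - 1), by have := (dig P.2 j).2; omega⟩, P.1)
  let f : ((∀ i, ZMod (ns i)) × Γ) → (J × Fin m → Fin p) × (∀ i, ZMod (ns i)) := fun P =>
    (emb p m fun j => ⟨dig P.2 j, by have := (dig P.2 j).2; omega⟩, P.1)
  have hf : Function.Injective f := by
    rintro ⟨α, g⟩ ⟨β, h⟩ heq
    simp only [f, Prod.mk.injEq] at heq
    obtain ⟨h1, h2⟩ := heq
    have h3 := emb_injective h1
    refine Prod.ext h2 (hdig ?_)
    funext j
    apply Fin.ext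
    exact congrArg (fun z : Fin (p ^ m) => (z : ℕ)) (congrFun h3 j)
  let A1 : Matrix ((J × Fin m → Fin p) × (∀ i, ZMod (ns i)))
      ((J × Fin m → Fin p) × (∀ i, ZMod (ns i))) K :=
    tp J (V p m θ)⁻¹ ⊗ₖ (1 : Matrix (∀ i, ZMod (ns i)) (∀ i, ZMod (ns i)) K)
  let A2 : Matrix ((J × Fin m → Fin p) × (∀ i, ZMod (ns i)))
      ((J × Fin m → Fin p) × (∀ i, ZMod (ns i))) K :=
    tp J (V p m θ) ⊗ₖ (1 : Matrix (∀ i, ZMod (ns i)) (∀ i, ZMod (ns i)) K)
  have hA1 : ∀ P Q, A1 P Q = tp J (V p m θ)⁻¹ P.1 Q.1 *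
      (1 : Matrix (∀ i, ZMod (ns i)) (∀ i, ZMod (ns i)) K) P.2 Q.2 := fun P Q => rfl
  have hA2 : ∀ P Q, A2 P Q = tp J (V p m θ) P.1 Q.1 *
      (1 : Matrix (∀ i, ZMod (ns i)) (∀ i, ZMod (ns i)) K) P.2 Q.2 := fun P Q => rfl
  have hcut : cut E Mid = (A1 * DD * A2).submatrix e f := by
    ext ⟨α, g⟩ ⟨β, h⟩
    rw [Matrix.submatrix_apply, Matrix.mul_apply]
    have h1 : ∀ Q : (J × Fin m → Fin p) × (∀ i, ZMod (ns i)),
        (A1 * DD) (e (α, g)) Q =
        tp J (V p m θ)⁻¹ (e (α, g)).1 Q.1 *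
          (if α ∉ E ∧ Q.2 ∉ E then ∑ t, B t α Q.2 * gh (b := b) θ (Φ t) Q.1 else 0) := by
      intro Q
      rw [Matrix.mul_apply, Finset.sum_eq_single (Q.1, α)]
      · rw [hA1]
        have e1 : (1 : Matrix (∀ i, ZMod (ns i)) _ K) (e (α, g)).2 (Q.1, α).2 = 1 :=
          Matrix.one_apply_eq α
        rw [e1, mul_one]
        congr 1
        simp only [DD, Matrix.of_apply, true_and]
      · rintro ⟨a, α'⟩ _ hne
        rw [hA1]
        by_cases h2 : α' = α
        · subst h2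
          have h3 : a ≠ Q.1 := fun h4 => hne (by rw [h4])
          have h4 : DD (a, α') Q = 0 := by
            simp only [DD, Matrix.of_apply]
            rw [if_neg fun h5 => h3 h5.1]
          rw [h4, mul_zero]
        · have h3 : (1 : Matrix (∀ i, ZMod (ns i)) _ K) (e (α, g)).2 (a, α').2 = 0 :=
            Matrix.one_apply_ne (Ne.symm h2)
          rw [h3, mul_zero, zero_mul]
      · intro h2
        exact absurd (mem_univ _) h2
    have h2 : ∀ a : J × Fin m → Fin p, ∑ β' : (∀ i, ZMod (ns i)),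
        (A1 * DD) (e (α, g)) (a, β') * A2 (a, β') (f (β, h)) =
        tp J (V p m θ)⁻¹ (e (α, g)).1 a *
          (if α ∉ E ∧ β ∉ E then ∑ t, B t α β * gh (b := b) θ (Φ t) a else 0) *
          tp J (V p m θ) a (f (β, h)).1 := by
      intro a
      rw [Finset.sum_eq_single β]
      · rw [h1, hA2]
        have e1 : (1 : Matrix (∀ i, ZMod (ns i)) _ K) (a, β).2 (f (β, h)).2 = 1 :=
          Matrix.one_apply_eq β
        rw [e1, mul_one]
      · intro β' _ hne
        rw [hA2]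
        have h3 : (1 : Matrix (∀ i, ZMod (ns i)) _ K) (a, β').2 (f (β, h)).2 = 0 :=
          Matrix.one_apply_ne hne
        rw [h3, mul_zero, mul_zero]
      · intro h2
        exact absurd (mem_univ _) h2
    rw [Fintype.sum_prod_type, Finset.sum_congr rfl fun a _ => h2 a]
    by_cases hαβ : α ∉ E ∧ β ∉ E
    · have hc : cut E Mid (α, g) (β, h) = Mid (α, g) (β, h) := by
        rw [cut, Matrix.of_apply]
        refine if_neg ?_
        intro h3
        rcases h3 with h3 | h3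
        · exact hαβ.1 h3
        · exact hαβ.2 h3
      rw [hc]
      simp only [if_pos hαβ]
      have h3 : Mid (α, g) (β, h) = ∑ t, B t α β *
          Φ t (fun j => ((dig g j : ℕ) : ℤ) - ((dig h j : ℕ) : ℤ)) := by
        rw [hMid, Matrix.sum_apply]
        rfl
      rw [h3]
      have h4 : ∀ t, Φ t (fun j => ((dig g j : ℕ) : ℤ) - ((dig h j : ℕ) : ℤ)) =
          ∑ a, tp J (V p m θ)⁻¹ (e (α, g)).1 a * gh (b := b) θ (Φ t) a *
            tp J (V p m θ) a (f (β, h)).1 := by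
        intro t
        exact (toep θ hθ hb (Φ t) (dig g) (dig h)).symm
      rw [Finset.sum_congr rfl fun t _ => by rw [h4 t]]
      simp only [Finset.mul_sum, Finset.sum_mul]
      rw [Finset.sum_comm]
      refine Finset.sum_congr rfl fun a _ => Finset.sum_congr rfl fun t _ => by ring
    · have hc : cut E Mid (α, g) (β, h) = 0 := by
        rw [cut, Matrix.of_apply]
        refine if_pos ?_
        by_contra h3
        rw [not_or] at h3
        exact hαβ h3
      rw [hc]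
      simp only [if_neg hαβ]
      simp
  have rsCut : RS (Real.exp (s2 * Real.log (1 / l2) + l2 * p * kJ) ^ (2 * l + 4) *
          Real.exp (s1 * Real.log (1 / l1) + l1 * M0 * kH) *
          Real.exp (s2 * Real.log (1 / l2) + l2 * p * kJ) ^ (2 * l + 4))
      (8 * (2 * l + 4 : ℕ) * (Fintype.card (J × Fin m → Fin p) *
          Fintype.card (∀ i, ZMod (ns i))) * Real.exp (-(s2 ^ 2 / (8 * (5 * p) ^ 2 * kJ))))
      (cut E Mid) := by
    rw [hcut]
    refine RS.submatrix ?_ e f hf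
    refine ((rsW'.mul rsD (by positivity)).mul rsW (by positivity)).mono (le_refl _)
      (le_of_eq ?_)
    ring
  have rsMid : RS (Real.exp (s2 * Real.log (1 / l2) + l2 * p * kJ) ^ (2 * l + 4) *
          Real.exp (s1 * Real.log (1 / l1) + l1 * M0 * kH) *
          Real.exp (s2 * Real.log (1 / l2) + l2 * p * kJ) ^ (2 * l + 4))
      (8 * (2 * l + 4 : ℕ) * (Fintype.card (J × Fin m → Fin p) *
          Fintype.card (∀ i, ZMod (ns i))) * Real.exp (-(s2 ^ 2 / (8 * (5 * p) ^ 2 * kJ))) +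
        4 * (Fintype.card (∀ i, ZMod (ns i)) * Fintype.card Γ) *
          Real.exp (-(s1 ^ 2 / (8 * M0 ^ 2 * kH)))) Mid := by
    have h1 : Mid = cut E Mid + (Mid - cut E Mid) := by abel
    rw [h1]
    refine rsCut.add_rk ((rk_sub_cut E Mid).mono ?_)
    have h2 := mul_le_mul_of_nonneg_right hE (Nat.cast_nonneg (α := ℝ) (Fintype.card Γ))
    calc 2 * ((E.card : ℝ) * Fintype.card Γ) ≤ 2 * (2 * (Fintype.card (∀ i, ZMod (ns i))) *
          Real.exp (-(s1 ^ 2 / (8 * M0 ^ 2 * kH))) * Fintype.card Γ) := by linarith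
      _ = _ := by ring
  rw [hM, ← hUinv]
  have rsU1 : RS (Real.exp (s1 * Real.log (1 / l1) + l1 * M0 * kH))
      (4 * (Fintype.card (∀ i, ZMod (ns i)) * Fintype.card Γ) *
          Real.exp (-(s1 ^ 2 / (8 * M0 ^ 2 * kH)))) (U ⊗ₖ (1 : Matrix Γ Γ K)) := rsU
  have rsU1' : RS (Real.exp (s1 * Real.log (1 / l1) + l1 * M0 * kH))
      (4 * (Fintype.card (∀ i, ZMod (ns i)) * Fintype.card Γ) *
          Real.exp (-(s1 ^ 2 / (8 * M0 ^ 2 * kH)))) (U⁻¹ ⊗ₖ (1 : Matrix Γ Γ K)) := rsU'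
  refine ((rsU1.mul rsMid (by positivity)).mul rsU1' (by positivity)).mono (le_refl _)
    (le_of_eq ?_)
  ring

end

end Pool.Agent.W967.Rig
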