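import Pool.Agent.W967.Rig.Core

set_option autoImplicit false
set_option linter.unusedSectionVars false

/-!
# Descent to the ground field, and a large finite field
-/

namespace Pool.Agent.W967.Rig

open Matrix Finset

section Descent

variable {F K : Type} [Field F] [Field K] [Algebra F K] [FiniteDimensional F K]
  {m n : Type} [Fintype m] [Fintype n]

theorem Rk.descend {r : ℝ} {R : Matrix m n K} (h : Rk r R) (π : K →ₗ[F] F) :
    Rk (r * Module.finrank F K) (R.map π) := by
  classical
  obtain ⟨κ, _, A, B, rfl, hr⟩ := h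
  let b := Module.finBasis F K
  refine ⟨κ × Fin (Module.finrank F K), inferInstance, Matrix.of fun x q => b.repr (A x q.1) q.2,
    Matrix.of fun q y => π (b q.2 * B q.1 y), ?_, ?_⟩
  · ext x y
    rw [Matrix.map_apply, Matrix.mul_apply, Matrix.mul_apply, map_sum, Fintype.sum_prod_type]
    refine Finset.sum_congr rfl fun k _ => ?_
    simp only [Matrix.of_apply]
    conv_lhs => rw [← b.sum_repr (A x k), Finset.sum_mul, map_sum]
    refine Finset.sum_congr rfl fun l _ => ?_
    rw [smul_mul_assoc, map_smul, smul_eq_mul]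
  · rw [Fintype.card_prod, Fintype.card_fin]
    push_cast
    exact mul_le_mul_of_nonneg_right hr (by positivity)

theorem RS.descend {D r : ℝ} {M : Matrix m n F} (h : RS D r (M.map (algebraMap F K))) :
    RS D (r * Module.finrank F K) M := by
  classical
  obtain ⟨S, R, e, hR, hS⟩ := h
  obtain ⟨π, hπ⟩ := LinearMap.exists_leftInverse_of_injective (Algebra.linearMap F K)
    (LinearMap.ker_eq_bot.2 (algebraMap F K).injective)
  have hπ' : ∀ x : F, π (algebraMap F K x) = x := fun x => LinearMap.congr_fun hπ x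
  refine ⟨S.map π, R.map π, ?_, hR.descend π, fun x => ?_⟩
  · ext x y
    have h1 := congrFun (congrFun e x) y
    rw [Matrix.map_apply, Matrix.add_apply] at h1
    rw [Matrix.add_apply, Matrix.map_apply, Matrix.map_apply, ← map_add, ← h1, hπ']
  · refine le_trans ?_ (hS x)
    norm_cast
    refine Finset.card_le_card ?_
    intro y hy
    rw [Finset.mem_filter] at hy ⊢
    refine ⟨mem_univ _, fun h0 => hy.2 ?_⟩
    rw [Matrix.map_apply, h0, map_zero]

end Descent

section Field

open Polynomial IntermediateField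

theorem exists_theta (K : Type) [Field K] [Finite K] {p m : ℕ} [Fact p.Prime] [CharP K p]
    (h : p ^ m ≤ Nat.card K) : ∃ θ : K, Function.Injective (pt (p := p) (m := m) θ) := by
  let _ : Algebra (ZMod p) K := ZMod.algebra K p
  have : Module.Finite (ZMod p) K := Module.Finite.of_finite
  obtain ⟨θ, hθ⟩ := Field.exists_primitive_element_of_finite_top (ZMod p) K
  have h1 := (Field.primitive_element_iff_minpoly_natDegree_eq (ZMod p) θ).1 hθ
  have h2 : Nat.card K = p ^ Module.finrank (ZMod p) K := by
    have := Module.natCard_eq_pow_finrank (K := ZMod p) (V := K)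
    rwa [Nat.card_zmod] at this
  have hp : 1 < p := (Fact.out : p.Prime).one_lt
  have h3 : m ≤ (minpoly (ZMod p) θ).natDegree := by
    rw [h1]
    rw [h2] at h
    exact (Nat.pow_le_pow_iff_right hp).1 h
  have h4 := (linearIndependent_pow (K := ZMod p) θ).comp (Fin.castLE h3) (Fin.castLE_injective h3)
  refine ⟨θ, fun a a' haa => ?_⟩
  rw [Fintype.linearIndependent_iff] at h4
  have h5 : ∑ t : Fin m, ((a t : ℕ) - (a' t : ℕ) : ZMod p) • θ ^ (t : ℕ) = 0 := by
    have h6 : ∀ b : Fin m → Fin p, pt θ b = ∑ t : Fin m, ((b t : ℕ) : ZMod p) • θ ^ (t : ℕ) := by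
      intro b
      rw [pt]
      refine Finset.sum_congr rfl fun t _ => ?_
      rw [Algebra.smul_def, map_natCast]
    rw [h6, h6] at haa
    simp only [sub_smul, Finset.sum_sub_distrib]
    rw [haa, sub_self]
  have h7 := h4 (fun t => ((a t : ℕ) - (a' t : ℕ) : ZMod p)) h5
  funext t
  have h8 := sub_eq_zero.1 (h7 t)
  apply Fin.ext
  have h9 := (ZMod.natCast_eq_natCast_iff _ _ _).1 h8
  exact Nat.ModEq.eq_of_lt_of_lt h9 (a t).2 (a' t).2

theorem exists_field (F : Type) [Field F] [Finite F] (p : ℕ) [Fact p.Prime] [CharP F p]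
    (m M0 : ℕ) (hm : m ≠ 0) : ∃ (K : Type) (_ : Field K) (_ : Algebra F K)
      (_ : FiniteDimensional F K) (_ : CharP K p),
      (∀ n : ℕ, 1 ≤ n → n ≤ M0 → (X ^ n - 1 : K[X]).Splits) ∧
        ∃ θ : K, Function.Injective (pt (p := p) (m := m) θ) := by
  classical
  have hp : 1 < p := (Fact.out : p.Prime).one_lt
  let g : F[X] := (X ^ p ^ m - X) * ∏ n ∈ Finset.Icc 1 M0, (X ^ n - 1)
  have hg1 : (X ^ p ^ m - X : F[X]) ≠ 0 := FiniteField.X_pow_card_pow_sub_X_ne_zero _ hm hp
  have hg2 : ∀ n ∈ Finset.Icc 1 M0, (X ^ n - 1 : F[X]) ≠ 0 := by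
    intro n hn
    have : 0 < n := by
      rw [Finset.mem_Icc] at hn
      omega
    have := X_pow_sub_C_ne_zero this (1 : F)
    simpa using this
  have hg : g ≠ 0 := mul_ne_zero hg1 (Finset.prod_ne_zero_iff.2 hg2)
  let K := g.SplittingField
  have hs : (g.map (algebraMap F K)).Splits := SplittingField.splits g
  have hgK : g.map (algebraMap F K) ≠ 0 :=
    (Polynomial.map_ne_zero_iff (algebraMap F K).injective).2 hg
  have hcp : CharP K p := charP_of_injective_algebraMap (algebraMap F K).injective p
  have hfin : Finite K := Module.finite_of_finite F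
  refine ⟨K, inferInstance, inferInstance, inferInstance, hcp, ?_, ?_⟩
  · intro n hn hn'
    have h1 : (X ^ n - 1 : K[X]) = (X ^ n - 1 : F[X]).map (algebraMap F K) := by simp
    rw [h1]
    refine hs.of_dvd hgK (Polynomial.map_dvd _ ?_)
    exact (Finset.dvd_prod_of_mem (fun n => (X ^ n - 1 : F[X]))
      (Finset.mem_Icc.2 ⟨hn, hn'⟩)).mul_left _
  · refine exists_theta K ?_
    have h1 : ((X ^ p ^ m - X : F[X]).map (algebraMap F K)).Splits :=
      hs.of_dvd hgK (Polynomial.map_dvd _ (Dvd.intro _ rfl))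
    have h2 := card_rootSet_eq_natDegree (K := K)
      (galois_poly_separable (K := F) p (p ^ m) (dvd_pow_self p hm)) h1
    rw [FiniteField.X_pow_card_pow_sub_X_natDegree_eq _ hm hp] at h2
    rw [← h2, ← Nat.card_eq_fintype_card]
    exact Nat.card_le_card_of_injective _ Subtype.val_injective

end Field

end Pool.Agent.W967.Rig
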