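import Pool.Agent.W967.Rig.Main

set_option autoImplicit false
set_option linter.unusedSectionVars false

/-!
# Circulants of finite abelian groups over a finite field are not rigid: final form
-/

namespace Pool.Agent.W967.Rig

open Matrix Finset Filter Topology

theorem main_group (F : Type) [Field F] [Finite F] (ε : ℝ) (hε : 0 < ε) :
    ∃ γ : ℝ, 0 < γ ∧ ∃ N₀ : ℕ, ∀ (G : Type) [AddCommGroup G] [Fintype G] (f : G → F),
      N₀ ≤ Fintype.card G → ∃ B : Matrix G G F,
        (B.rank : ℝ) ≤ (Fintype.card G : ℝ) ^ (1 - γ) ∧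
        ({q : G × G | Matrix.circulant f q.1 q.2 ≠ B q.1 q.2}.ncard : ℝ) ≤
          (Fintype.card G : ℝ) ^ (1 + ε) := by
  classical
  obtain ⟨γ, C, hγ, hC, h⟩ := main_pi F ε hε
  obtain ⟨N₁, hN₁⟩ := ((tendsto_rpow_atTop (show 0 < γ / 2 by positivity)).comp
    tendsto_natCast_atTop_atTop).eventually_ge_atTop C |>.exists_forall_of_atTop
  refine ⟨γ / 2, by positivity, max 2 N₁, fun G _ _ f hG => ?_⟩
  obtain ⟨ι, _, n, hn, ⟨e0⟩⟩ := AddCommGroup.equiv_directSum_zmod_of_finite' G
  have hne : ∀ i, NeZero (n i) := fun i => ⟨by have := hn i; omega⟩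
  let e : G ≃+ (∀ i, ZMod (n i)) := e0.trans (DirectSum.addEquivProd _)
  have hcard : Fintype.card G = ∏ i, n i := by
    rw [Fintype.card_congr e.toEquiv, Fintype.card_pi]
    exact Finset.prod_congr rfl fun i _ => ZMod.card _
  have hG2 : 2 ≤ Fintype.card G := (le_max_left _ _).trans hG
  have h1 := h ι n hn (by rw [← hcard]; exact hG2) (fun x => f (e.symm x))
  have hcr : ∏ i, (n i : ℝ) = Fintype.card G := by
    rw [hcard]
    push_cast
    rfl
  rw [hcr] at h1
  have hNr : (2 : ℝ) ≤ Fintype.card G := by exact_mod_cast hG2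
  have hN0 : (0 : ℝ) < Fintype.card G := by linarith
  have h2 := h1.submatrix e e e.injective
  have h3 : (Matrix.of fun x y : (∀ i, ZMod (n i)) => f (e.symm (x - y))).submatrix e e =
      Matrix.circulant f := by
    ext x y
    rw [Matrix.submatrix_apply, Matrix.of_apply, Matrix.circulant_apply, ← map_sub,
      e.symm_apply_apply]
  rw [h3] at h2
  obtain ⟨S, R, hSR, hR, hS⟩ := h2
  refine ⟨R, hR.rank_le.trans ?_, ?_⟩
  · have h4 := hN₁ (Fintype.card G) ((le_max_right _ _).trans hG)
    simp only [Function.comp] at h4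
    rw [mul_comm (1 - γ), ← Real.rpow_def_of_pos hN0]
    calc C * (Fintype.card G : ℝ) ^ (1 - γ)
        ≤ (Fintype.card G : ℝ) ^ (γ / 2) * (Fintype.card G : ℝ) ^ (1 - γ) :=
          mul_le_mul_of_nonneg_right h4 (by positivity)
      _ = (Fintype.card G : ℝ) ^ (1 - γ / 2) := by
          rw [← Real.rpow_add hN0]
          congr 1
          ring
  · have h4 : {q : G × G | Matrix.circulant f q.1 q.2 ≠ R q.1 q.2} =
        ((Finset.univ.filter fun q : G × G => S q.1 q.2 ≠ 0 : Finset (G × G)) : Set (G × G)) := by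
      ext q
      rw [hSR]
      simp [Matrix.add_apply]
    rw [h4, Set.ncard_coe_finset]
    have h5 : (Finset.univ.filter fun q : G × G => S q.1 q.2 ≠ 0).card =
        ∑ x : G, (Finset.univ.filter fun y => S x y ≠ 0).card := by
      rw [Finset.card_filter, Fintype.sum_prod_type]
      refine Finset.sum_congr rfl fun x _ => ?_
      rw [Finset.card_filter]
    rw [h5]
    push_cast
    calc ∑ x : G, ((Finset.univ.filter fun y => S x y ≠ 0).card : ℝ)
        ≤ ∑ _x : G, Real.exp (ε * Real.log (Fintype.card G)) :=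
          Finset.sum_le_sum fun x _ => by convert hS x
      _ = (Fintype.card G : ℝ) ^ (1 + ε) := by
          rw [Finset.sum_const, nsmul_eq_mul, Finset.card_univ, mul_comm ε,
            ← Real.rpow_def_of_pos hN0, Real.rpow_add hN0, Real.rpow_one]

end Pool.Agent.W967.Rig
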