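import Pool.Agent.W967.Rig.Conc
import Pool.Agent.W966.Dft

set_option autoImplicit false
set_option linter.unusedSectionVars false

/-!
# Graded matrices

A matrix on tuples of digits is graded if the Hamming distance of the indices of a nonzero entry
is at most the difference of an additive weight.
-/

namespace Pool.Agent.W967.Rig

open Matrix Finset Kronecker
open Pool.Agent.W966.Kron (tens tens_mul)

variable {K : Type*} [Field K]

/-- The inverse of an invertible matrix supported on a preorder is supported on the preorder. -/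
theorem inv_supp {X : Type} [Fintype X] [DecidableEq X] (rel : X → X → Prop)
    (hr : ∀ x, rel x x) (ht : ∀ x y z, rel x y → rel y z → rel x z) (T : Matrix X X K)
    (hT : IsUnit T.det) (h : ∀ x y, T x y ≠ 0 → rel x y) (x y : X) (hxy : T⁻¹ x y ≠ 0) :
    rel x y := by
  classical
  let G : Submodule K (Matrix X X K) :=
    { carrier := {A | ∀ x y, A x y ≠ 0 → rel x y}
      add_mem' := by
        intro A B hA hB x y hne
        by_cases h1 : A x y = 0
        · refine hB x y ?_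
          rw [Matrix.add_apply, h1, zero_add] at hne
          exact hne
        · exact hA x y h1
      zero_mem' := by
        intro x y hne
        exact absurd rfl hne
      smul_mem' := by
        intro c A hA x y hne
        refine hA x y ?_
        rw [Matrix.smul_apply] at hne
        exact fun h0 => hne (by rw [h0, smul_zero]) }
  have hmem : ∀ A : Matrix X X K, A ∈ G ↔ ∀ x y, A x y ≠ 0 → rel x y := fun A => Iff.rfl
  have hmul : ∀ A ∈ G, T * A ∈ G := by
    intro A hA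
    rw [hmem] at hA ⊢
    intro x y hne
    rw [Matrix.mul_apply] at hne
    obtain ⟨z, -, hz⟩ := Finset.exists_ne_zero_of_sum_ne_zero hne
    exact ht x z y (h _ _ (left_ne_zero_of_mul hz)) (hA _ _ (right_ne_zero_of_mul hz))
  let L : G →ₗ[K] G := (LinearMap.mulLeft K T).restrict hmul
  have hinj : Function.Injective L := by
    intro A B hAB
    have h1 : T * A.1 = T * B.1 := congrArg Subtype.val hAB
    have h2 : T⁻¹ * (T * A.1) = T⁻¹ * (T * B.1) := by rw [h1]
    rw [← Matrix.mul_assoc, ← Matrix.mul_assoc, Matrix.nonsing_inv_mul _ hT, Matrix.one_mul,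
      Matrix.one_mul] at h2
    exact Subtype.ext h2
  have hsurj : Function.Surjective L := LinearMap.injective_iff_surjective.1 hinj
  have h1 : (1 : Matrix X X K) ∈ G := by
    rw [hmem]
    intro x y hne
    rw [Matrix.one_apply] at hne
    split_ifs at hne with h2
    · exact h2 ▸ hr x
    · exact absurd rfl hne
  obtain ⟨A, hA⟩ := hsurj ⟨1, h1⟩
  have h2 : T * A.1 = 1 := congrArg Subtype.val hA
  have h3 : T⁻¹ = A.1 := Matrix.inv_eq_right_inv h2
  rw [h3] at hxy
  exact (hmem A.1).1 A.2 x y hxy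

section Gr

variable {ι : Type} [Fintype ι] [DecidableEq ι] {α : ι → Type} [∀ i, Fintype (α i)]
  [∀ i, DecidableEq (α i)]

/-- `T` is graded by an additive weight with values in `[0, M]` on each digit. -/
def Gr (M : ℝ) (T : Matrix (∀ i, α i) (∀ i, α i) K) : Prop :=
  ∃ φ : ∀ i, α i → ℝ, (∀ i a, 0 ≤ φ i a ∧ φ i a ≤ M) ∧
    ∀ x y, T x y ≠ 0 → (hammingDist x y : ℝ) ≤ ∑ i, φ i (x i) - ∑ i, φ i (y i)

theorem Gr.inv {M : ℝ} {T : Matrix (∀ i, α i) (∀ i, α i) K} (h : Gr M T) (hT : IsUnit T.det) :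
    Gr M T⁻¹ := by
  obtain ⟨φ, hφ, h1⟩ := h
  refine ⟨φ, hφ, inv_supp (fun x y : (∀ i, α i) =>
    (hammingDist x y : ℝ) ≤ ∑ i, φ i (x i) - ∑ i, φ i (y i)) (by intro x; simp) ?_ T hT h1⟩
  intro x y z hxy hyz
  have : (hammingDist x z : ℝ) ≤ hammingDist x y + hammingDist y z := by
    exact_mod_cast hammingDist_triangle x y z
  linarith

theorem Gr.transpose {M : ℝ} {T : Matrix (∀ i, α i) (∀ i, α i) K} (h : Gr M T) : Gr M Tᵀ := by
  obtain ⟨φ, hφ, h1⟩ := h
  refine ⟨fun i a => M - φ i a, fun i a => ⟨by linarith [(hφ i a).2], by linarith [(hφ i a).1]⟩,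
    fun x y hxy => ?_⟩
  have := h1 y x hxy
  rw [hammingDist_comm] at this
  simp only [Finset.sum_sub_distrib]
  linarith

theorem hammingDist_eq_sum (x y : ∀ i, α i) :
    (hammingDist x y : ℝ) = ∑ i, (if x i ≠ y i then (1 : ℝ) else 0) := by
  simp [hammingDist, Finset.card_filter]

theorem gr_tens {M : ℝ} (T : ∀ i, Matrix (α i) (α i) K) (φ : ∀ i, α i → ℝ)
    (hφ : ∀ i a, 0 ≤ φ i a ∧ φ i a ≤ M)
    (h : ∀ i a c, T i a c ≠ 0 → a = c ∨ φ i c + 1 ≤ φ i a) : Gr M (tens T) := by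
  refine ⟨φ, hφ, fun x y hxy => ?_⟩
  have h1 : ∀ i, T i (x i) (y i) ≠ 0 := fun i =>
    Finset.prod_ne_zero_iff.1 hxy i (Finset.mem_univ i)
  rw [hammingDist_eq_sum, ← Finset.sum_sub_distrib]
  refine Finset.sum_le_sum fun i _ => ?_
  rcases h i _ _ (h1 i) with h2 | h2
  · simp [h2]
  · split_ifs <;> linarith

open Classical in
theorem rs_kron {M k : ℝ} (hM : 0 < M) {T : Matrix (∀ i, α i) (∀ i, α i) K} (h : Gr M T)
    (hk : (Fintype.card ι : ℝ) ≤ k) (hk0 : 0 < k) {d : ℕ} (hd : ∀ i, Fintype.card (α i) ≤ d)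
    {l s : ℝ} (hl : 0 < l) (hl1 : l ≤ 1) (hs : 0 ≤ s) (Γ : Type) [Fintype Γ] :
    RS (Real.exp (s * Real.log (1 / l) + l * d * k))
      (4 * (Fintype.card (∀ i, α i) * Fintype.card Γ) * Real.exp (-(s ^ 2 / (8 * M ^ 2 * k))))
      (T ⊗ₖ (1 : Matrix Γ Γ K)) := by
  obtain ⟨φ, hφ, h1⟩ := h
  obtain ⟨E, hE, hE'⟩ := exists_exc φ hM hφ hk hk0 hs
  refine ⟨cut E (T ⊗ₖ (1 : Matrix Γ Γ K)), T ⊗ₖ (1 : Matrix Γ Γ K) -
    cut E (T ⊗ₖ (1 : Matrix Γ Γ K)), by abel, (rk_sub_cut E _).mono ?_, ?_⟩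
  · have h2 := mul_le_mul_of_nonneg_right hE (Nat.cast_nonneg (α := ℝ) (Fintype.card Γ))
    calc 2 * ((E.card : ℝ) * Fintype.card Γ) ≤ 2 * (2 * (Fintype.card (∀ i, α i)) *
          Real.exp (-(s ^ 2 / (8 * M ^ 2 * k))) * Fintype.card Γ) := by linarith
      _ = _ := by ring
  · rintro ⟨x, g⟩
    refine le_trans ?_ (ball_le x hl hl1 hd hk (s := s))
    norm_cast
    refine Finset.card_le_card_of_injOn (fun q => q.1) ?_ ?_
    · rintro ⟨y, g'⟩ hq
      rw [Finset.mem_coe, Finset.mem_filter] at hq ⊢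
      obtain ⟨hx, hy, hne⟩ := cut_ne hq.2
      rw [Matrix.kronecker_apply] at hne
      have h3 := h1 x y (left_ne_zero_of_mul hne)
      exact ⟨Finset.mem_univ _, h3.trans (hE' x y hx hy)⟩
    · rintro ⟨y, g'⟩ hq ⟨z, g''⟩ hq' hyz
      rw [Finset.mem_coe, Finset.mem_filter] at hq hq'
      obtain ⟨-, -, hne⟩ := cut_ne hq.2
      obtain ⟨-, -, hne'⟩ := cut_ne hq'.2
      rw [Matrix.kronecker_apply] at hne hne'
      have e1 := right_ne_zero_of_mul hne
      have e2 := right_ne_zero_of_mul hne'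
      simp only [Matrix.one_apply, ne_eq, ite_eq_right_iff, one_ne_zero, imp_false,
        not_not] at e1 e2
      simp only at hyz
      rw [hyz, ← e1, ← e2]

theorem rs_kron' {M k : ℝ} (hM : 0 < M) {T : Matrix (∀ i, α i) (∀ i, α i) K} (h : Gr M T)
    (hk : (Fintype.card ι : ℝ) ≤ k) (hk0 : 0 < k) {d : ℕ} (hd : ∀ i, Fintype.card (α i) ≤ d)
    {l s : ℝ} (hl : 0 < l) (hl1 : l ≤ 1) (hs : 0 ≤ s) (Γ : Type) [Fintype Γ]
    [inst : DecidableEq Γ] :
    RS (Real.exp (s * Real.log (1 / l) + l * d * k))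
      (4 * (Fintype.card (∀ i, α i) * Fintype.card Γ) * Real.exp (-(s ^ 2 / (8 * M ^ 2 * k))))
      (T ⊗ₖ (1 : Matrix Γ Γ K)) := by
  have e : inst = fun a b => Classical.propDecidable (a = b) := Subsingleton.elim _ _
  subst e
  exact rs_kron hM h hk hk0 hd hl hl1 hs Γ

/-- `T` is a product of `k` invertible graded matrices. -/
def Ch (M : ℝ) : ℕ → Matrix (∀ i, α i) (∀ i, α i) K → Prop
  | 0, T => T = 1
  | k + 1, T => ∃ A B, IsUnit A.det ∧ Gr M A ∧ Ch M k B ∧ T = A * B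

theorem Ch.mul {M : ℝ} {k l : ℕ} {A B : Matrix (∀ i, α i) (∀ i, α i) K} (hA : Ch M k A)
    (hB : Ch M l B) : Ch M (k + l) (A * B) := by
  induction k generalizing A with
  | zero =>
    have : A = 1 := hA
    rw [this, Matrix.one_mul, Nat.zero_add]
    exact hB
  | succ k ih =>
    obtain ⟨C, D, h1, h2, h3, rfl⟩ := hA
    rw [Nat.succ_add, Matrix.mul_assoc]
    exact ⟨C, D * B, h1, h2, ih h3, rfl⟩

theorem Ch.single {M : ℝ} {A : Matrix (∀ i, α i) (∀ i, α i) K} (h : Gr M A)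
    (hA : IsUnit A.det) : Ch M 1 A :=
  ⟨A, 1, hA, h, rfl, by rw [Matrix.mul_one]⟩

theorem Ch.isUnit {M : ℝ} {k : ℕ} {A : Matrix (∀ i, α i) (∀ i, α i) K} (hA : Ch M k A) :
    IsUnit A.det := by
  induction k generalizing A with
  | zero =>
    have : A = 1 := hA
    simp [this]
  | succ k ih =>
    obtain ⟨C, D, h1, h2, h3, rfl⟩ := hA
    rw [Matrix.det_mul]
    exact h1.mul (ih h3)

theorem Ch.inv {M : ℝ} {k : ℕ} {A : Matrix (∀ i, α i) (∀ i, α i) K} (hA : Ch M k A) :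
    Ch M k A⁻¹ := by
  induction k generalizing A with
  | zero =>
    have : A = 1 := hA
    rw [this, inv_one]
    rfl
  | succ k ih =>
    obtain ⟨C, D, h1, h2, h3, rfl⟩ := hA
    rw [Matrix.mul_inv_rev]
    refine (ih h3).mul (Ch.single (h2.inv h1) ?_)
    rw [Matrix.isUnit_nonsing_inv_det_iff]
    exact h1

end Gr

end Pool.Agent.W967.Rig
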