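import Pool.Agent.W967.Rig.Desc

set_option autoImplicit false
set_option linter.unusedSectionVars false

/-!
# Products of cyclic groups: small factors, and digits for the large ones
-/

namespace Pool.Agent.W967.Rig

open Matrix Finset

variable {ι : Type} [Fintype ι] [DecidableEq ι] (n : ι → ℕ)

/-- The total number of digits of the large cyclic factors. -/
noncomputable def rr (M0 b : ℕ) : ℕ := ∑ i : {i // ¬ n i ≤ M0}, Nat.clog b (n i)

variable {K : Type} [Field K] {m p : ℕ}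

theorem grp [Fact p.Prime] [CharP K p] (hn : ∀ i, 1 < n i) (θ : K)
    (hθ : Function.Injective (pt (p := p) (m := m) θ)) {l : ℕ} (hl : m ≤ 2 ^ l) {b : ℕ}
    (hb2 : 2 ≤ b) (hb : 3 * b ≤ p ^ m) {M0 : ℕ} (hM0 : 0 < M0)
    (hspl : ∀ k : ℕ, 1 ≤ k → k ≤ M0 → (Polynomial.X ^ k - 1 : Polynomial K).Splits)
    (f : (∀ i, ZMod (n i)) → K) [Fintype (∀ i, ZMod (n i))]
    {kH kJ : ℝ} (hkH : (Fintype.card {i // n i ≤ M0} : ℝ) ≤ kH) (hkH0 : 0 < kH)
    (hkJ : ((rr n M0 b * m : ℕ) : ℝ) ≤ kJ) (hkJ0 : 0 < kJ)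
    {l1 s1 l2 s2 : ℝ} (hl1 : 0 < l1) (hl1' : l1 ≤ 1) (hs1 : 0 ≤ s1) (hl2 : 0 < l2)
    (hl2' : l2 ≤ 1) (hs2 : 0 ≤ s2) :
    RS (Real.exp (s1 * Real.log (1 / l1) + l1 * M0 * kH) *
        (Real.exp (s2 * Real.log (1 / l2) + l2 * p * kJ) ^ (2 * l + 4) *
          Real.exp (s1 * Real.log (1 / l1) + l1 * M0 * kH) *
          Real.exp (s2 * Real.log (1 / l2) + l2 * p * kJ) ^ (2 * l + 4)) *
        Real.exp (s1 * Real.log (1 / l1) + l1 * M0 * kH))
      (12 * (∏ i, (n i : ℝ)) * Real.exp (-(s1 ^ 2 / (8 * M0 ^ 2 * kH))) +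
        8 * (2 * l + 4 : ℕ) * ((p : ℝ) ^ (rr n M0 b * m) *
          ∏ i : {i // n i ≤ M0}, (n i : ℝ)) * Real.exp (-(s2 ^ 2 / (8 * (5 * p) ^ 2 * kJ))))
      (Matrix.of fun x y : (∀ i, ZMod (n i)) => f (x - y)) := by
  classical
  have hne : ∀ i, NeZero (n i) := fun i => ⟨by have := hn i; omega⟩
  have hne1 : ∀ i : {i // n i ≤ M0}, NeZero (n i) := fun i => hne i
  have hne2 : ∀ i : {i // ¬ n i ≤ M0}, NeZero (n i) := fun i => hne i
  let t : {i // ¬ n i ≤ M0} → ℕ := fun i => Nat.clog b (n i)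
  let dig : (∀ i : {i // ¬ n i ≤ M0}, ZMod (n i)) → (Σ i, Fin (t i)) → Fin b := fun g j =>
    finFunctionFinEquiv.symm ⟨(g j.1).val,
      lt_of_lt_of_le (ZMod.val_lt _) (Nat.le_pow_clog (by omega) _)⟩ j.2
  have hdig : ∀ g i, ∑ j : Fin (t i), (dig g ⟨i, j⟩ : ℕ) * b ^ (j : ℕ) = (g i).val := by
    intro g i
    have h1 := congrArg Fin.val (Equiv.apply_symm_apply (finFunctionFinEquiv (m := b) (n := t i))
      ⟨(g i).val, lt_of_lt_of_le (ZMod.val_lt _) (Nat.le_pow_clog (by omega) _)⟩)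
    rw [finFunctionFinEquiv_apply] at h1
    exact h1
  have hdinj : Function.Injective dig := by
    intro g h hgh
    funext i
    apply ZMod.val_injective
    rw [← hdig g i, ← hdig h i, hgh]
  let e := Equiv.piEquivPiSubtypeProd (fun i => n i ≤ M0) (fun i => ZMod (n i))
  let Φ : (∀ i : {i // n i ≤ M0}, ZMod (n i)) → ((Σ i, Fin (t i)) → ℤ) → K := fun h d =>
    f (e.symm (h, fun i => ((∑ j : Fin (t i), d ⟨i, j⟩ * (b : ℤ) ^ (j : ℕ) : ℤ) : ZMod (n i))))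
  have hJ : Fintype.card (Σ i, Fin (t i)) = rr n M0 b := by
    rw [Fintype.card_sigma, rr]
    simp [t]
  have hcJ : Fintype.card ((Σ i, Fin (t i)) × Fin m) = rr n M0 b * m := by
    rw [Fintype.card_prod, hJ, Fintype.card_fin]
  have h1 := core (K := K) (fun i : {i // n i ≤ M0} => n i) θ hθ hl hb
    (fun i => hspl (n i) (by have := hn i; omega) i.2) hM0 (fun i => i.2) dig hdinj Φ
    hkH hkH0 (by rw [hcJ]; exact hkJ) hkJ0 hl1 hl1' hs1 hl2 hl2' hs2
  have h2 : (Matrix.of fun x y : (∀ i, ZMod (n i)) => f (x - y)) =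
      (Matrix.of fun P Q : (∀ i : {i // n i ≤ M0}, ZMod (n i)) ×
        (∀ i : {i // ¬ n i ≤ M0}, ZMod (n i)) =>
        Φ (P.1 - Q.1) (fun j => ((dig P.2 j : ℕ) : ℤ) - ((dig Q.2 j : ℕ) : ℤ))).submatrix e e := by
    ext x y
    rw [Matrix.submatrix_apply, Matrix.of_apply, Matrix.of_apply]
    simp only [Φ]
    congr 1
    rw [← e.symm_apply_apply (x - y)]
    congr 1
    refine Prod.ext rfl ?_
    funext i
    change x i - y i = _
    have h3 : (∑ j : Fin (t i), (((dig (e x).2 ⟨i, j⟩ : ℕ) : ℤ) - ((dig (e y).2 ⟨i, j⟩ : ℕ) : ℤ)) *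
        (b : ℤ) ^ (j : ℕ)) = (((x i).val : ℕ) : ℤ) - (((y i).val : ℕ) : ℤ) := by
      have h4 : (((x i).val : ℕ) : ℤ) =
          ∑ j : Fin (t i), ((dig (e x).2 ⟨i, j⟩ : ℕ) : ℤ) * (b : ℤ) ^ (j : ℕ) := by
        have := hdig (e x).2 i
        have h5 : (e x).2 i = x i := rfl
        rw [h5] at this
        rw [← this]
        push_cast
        rfl
      have h4' : (((y i).val : ℕ) : ℤ) =
          ∑ j : Fin (t i), ((dig (e y).2 ⟨i, j⟩ : ℕ) : ℤ) * (b : ℤ) ^ (j : ℕ) := by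
        have := hdig (e y).2 i
        have h5 : (e y).2 i = y i := rfl
        rw [h5] at this
        rw [← this]
        push_cast
        rfl
      rw [h4, h4', ← Finset.sum_sub_distrib]
      refine Finset.sum_congr rfl fun j _ => by ring
    refine Eq.trans ?_ (congrArg (fun z : ℤ => (z : ZMod (n i))) h3).symm
    push_cast
    rw [ZMod.natCast_zmod_val, ZMod.natCast_zmod_val]
  rw [h2]
  refine RS.submatrix (h1.mono (le_refl _) (le_of_eq ?_)) e e e.injective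
  have c1 : (Fintype.card (∀ i : {i // n i ≤ M0}, ZMod (n i)) : ℝ) =
      ∏ i : {i // n i ≤ M0}, (n i : ℝ) := by
    rw [Fintype.card_pi]
    push_cast
    refine Finset.prod_congr rfl fun i _ => by rw [ZMod.card]
  have c2 : (Fintype.card (∀ i : {i // ¬ n i ≤ M0}, ZMod (n i)) : ℝ) =
      ∏ i : {i // ¬ n i ≤ M0}, (n i : ℝ) := by
    rw [Fintype.card_pi]
    push_cast
    refine Finset.prod_congr rfl fun i _ => by rw [ZMod.card]
  have c3 : (Fintype.card ((Σ i, Fin (t i)) × Fin m → Fin p) : ℝ) = (p : ℝ) ^ (rr n M0 b * m) := by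
    rw [Fintype.card_fun, hcJ, Fintype.card_fin]
    push_cast
    rfl
  have c4 := Fintype.prod_subtype_mul_prod_subtype (fun i => n i ≤ M0) (fun i => (n i : ℝ))
  rw [c1, c2, c3, c4]

end Pool.Agent.W967.Rig
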