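import Pool.Agent.W967.Rig.Num

set_option autoImplicit false
set_option linter.unusedSectionVars false

/-!
# Circulants of finite abelian groups over a finite field are not rigid
-/

namespace Pool.Agent.W967.Rig

open Matrix Finset

theorem main_pi (F : Type) [Field F] [Finite F] (ε : ℝ) (hε : 0 < ε) :
    ∃ γ C : ℝ, 0 < γ ∧ 0 < C ∧ ∀ (ι : Type) [Fintype ι] [DecidableEq ι] (n : ι → ℕ)
      [Fintype (∀ i, ZMod (n i))], (∀ i, 1 < n i) → 2 ≤ ∏ i, n i → ∀ f : (∀ i, ZMod (n i)) → F,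
      RS (Real.exp (ε * Real.log (∏ i, (n i : ℝ))))
        (C * Real.exp ((1 - γ) * Real.log (∏ i, (n i : ℝ))))
        (Matrix.of fun x y : (∀ i, ZMod (n i)) => f (x - y)) := by
  classical
  obtain ⟨p, hpc⟩ := CharP.exists F
  have hpp : p.Prime := CharP.char_is_prime F p
  have : Fact p.Prime := ⟨hpp⟩
  have hp2 : 2 ≤ p := hpp.two_le
  obtain ⟨l, hl2, hsp, hra⟩ := exists_l p hp2 ε hε
  set m : ℕ := 2 ^ l with hm
  have hm4 : 4 ≤ m := by
    calc 4 = 2 ^ 2 := by norm_num
      _ ≤ 2 ^ l := Nat.pow_le_pow_right (by norm_num) hl2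
  set P : ℕ := p ^ m with hP
  have hP16 : 16 ≤ P := by
    calc 16 = 2 ^ 4 := by norm_num
      _ ≤ 2 ^ m := Nat.pow_le_pow_right (by norm_num) hm4
      _ ≤ p ^ m := Nat.pow_le_pow_left hp2 m
  set b : ℕ := P / 3 with hb
  have hb3 : 3 * b ≤ P := by omega
  have hb5 : 5 ≤ b := by omega
  have hPb : P ≤ 6 * b := by omega
  have hPb2 : P ≤ b ^ 2 := by
    have h1 : P ≤ 3 * b + 2 := by omega
    nlinarith
  set M0 : ℕ := P ^ m with hM0
  have hM0pos : 0 < M0 := by positivity
  have hbM : b ≤ M0 := by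
    calc b ≤ P := by omega
      _ = P ^ 1 := (pow_one P).symm
      _ ≤ P ^ m := Nat.pow_le_pow_right (by omega) (by omega)
  obtain ⟨l1, d1, hl1, hl1', hd1, hsmall⟩ := exists_small M0 hM0pos ε hε
  obtain ⟨K, iK, iA, iFD, iC, hspl, θ, hθ⟩ := exists_field F p m M0 (by omega)
  set d : ℕ := Module.finrank F K with hd
  set δ : ℝ := 1 / (l : ℝ) ^ 2 with hδ
  have hl2' : (2 : ℝ) ≤ l := by exact_mod_cast hl2
  have hδ0 : 0 < δ := by positivity
  have hδ1 : δ ≤ 1 := by
    rw [hδ, div_le_one (by positivity)]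
    nlinarith
  have hm' : (m : ℝ) = 2 ^ l := by rw [hm]; push_cast; rfl
  set γ1 : ℝ := d1 ^ 2 / (16 * (M0 : ℝ) ^ 2) with hγ1
  set γ2 : ℝ := δ ^ 2 / (1200 * (p : ℝ) ^ 2) - 7 / m with hγ2
  have hM0r : (0 : ℝ) < M0 := by exact_mod_cast hM0pos
  have hpr : (0 : ℝ) < p := by exact_mod_cast (by omega : 0 < p)
  have hγ1' : 0 < γ1 := by positivity
  have hγ2' : 0 < γ2 := by
    rw [hγ2, hm']
    linarith
  refine ⟨min γ1 γ2, (12 + 8 * (2 * l + 4 : ℕ)) * d, lt_min hγ1' hγ2', ?_, ?_⟩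
  · have : 0 < d := Module.finrank_pos
    positivity
  intro ι _ _ n _ hn hN f
  set N : ℝ := ∏ i, (n i : ℝ) with hNdef
  have hN2 : (2 : ℝ) ≤ N := by
    rw [hNdef]
    exact_mod_cast hN
  set L : ℝ := Real.log N with hL
  have hL0 : 0 < L := Real.log_pos (by linarith)
  have hNexp : N = Real.exp L := (Real.exp_log (by linarith)).symm
  obtain ⟨hrr1, hrr2⟩ := rr_bounds n hn hp2 (by omega) (by omega : 2 ≤ b) hPb hPb2 (le_refl M0) hbM
  have key := grp (K := K) n hn θ hθ (le_refl (2 ^ l)) (by omega : 2 ≤ b) hb3 hM0pos hspl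
    (fun x => algebraMap F K (f x)) (kH := 2 * L) (kJ := 6 * L) (small_count n hn M0)
    (by positivity) hrr1 (by positivity) (l1 := l1) (s1 := d1 * L) (l2 := δ) (s2 := δ * L)
    hl1 hl1' (by positivity) hδ0 hδ1 (by positivity)
  have key2 : RS (Real.exp (ε * L)) ((12 + 8 * (2 * l + 4 : ℕ)) *
      Real.exp ((1 - min γ1 γ2) * L)) ((Matrix.of fun x y : (∀ i, ZMod (n i)) =>
        f (x - y)).map (algebraMap F K)) := by
    have e0 : (Matrix.of fun x y : (∀ i, ZMod (n i)) => f (x - y)).map (algebraMap F K) =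
        Matrix.of fun x y : (∀ i, ZMod (n i)) => algebraMap F K (f (x - y)) := rfl
    rw [e0]
    refine key.mono ?_ ?_
    · -- sparsity
      rw [← Real.exp_nat_mul, ← Real.exp_add, ← Real.exp_add, ← Real.exp_add, ← Real.exp_add]
      refine Real.exp_le_exp.2 ?_
      have e1 : d1 * L * Real.log (1 / l1) + l1 * M0 * (2 * L) +
          (((2 * l + 4 : ℕ) : ℝ) * (δ * L * Real.log (1 / δ) + δ * p * (6 * L)) +
            (d1 * L * Real.log (1 / l1) + l1 * M0 * (2 * L)) +
            ((2 * l + 4 : ℕ) : ℝ) * (δ * L * Real.log (1 / δ) + δ * p * (6 * L))) +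
          (d1 * L * Real.log (1 / l1) + l1 * M0 * (2 * L)) =
          (3 * (d1 * Real.log (1 / l1) + 2 * M0 * l1) +
            (4 * (l : ℝ) + 8) * (δ * Real.log (1 / δ) + 6 * p * δ)) * L := by
        push_cast
        ring
      rw [e1]
      refine mul_le_mul_of_nonneg_right ?_ hL0.le
      linarith
    · -- rank
      have e1 : Real.exp (-((d1 * L) ^ 2 / (8 * (M0 : ℝ) ^ 2 * (2 * L)))) = Real.exp (-(γ1 * L)) := by
        congr 2
        rw [hγ1]
        field_simp
        ring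
      have e2 : Real.exp (-((δ * L) ^ 2 / (8 * (5 * (p : ℝ)) ^ 2 * (6 * L)))) =
          Real.exp (-(δ ^ 2 / (1200 * (p : ℝ) ^ 2) * L)) := by
        congr 2
        field_simp
        ring
      rw [e1, e2]
      have e3 : 8 * ((2 * l + 4 : ℕ) : ℝ) * ((p : ℝ) ^ (rr n M0 b * m) *
          ∏ i : {i // n i ≤ M0}, (n i : ℝ)) * Real.exp (-(δ ^ 2 / (1200 * (p : ℝ) ^ 2) * L)) ≤
          8 * ((2 * l + 4 : ℕ) : ℝ) * Real.exp ((1 - min γ1 γ2) * L) := by
        calc 8 * ((2 * l + 4 : ℕ) : ℝ) * ((p : ℝ) ^ (rr n M0 b * m) *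
          ∏ i : {i // n i ≤ M0}, (n i : ℝ)) * Real.exp (-(δ ^ 2 / (1200 * (p : ℝ) ^ 2) * L))
            ≤ 8 * ((2 * l + 4 : ℕ) : ℝ) * (N * Real.exp (7 / m * L)) *
              Real.exp (-(δ ^ 2 / (1200 * (p : ℝ) ^ 2) * L)) := by
              refine mul_le_mul_of_nonneg_right ?_ (by positivity)
              exact mul_le_mul_of_nonneg_left hrr2 (by positivity)
          _ = 8 * ((2 * l + 4 : ℕ) : ℝ) * Real.exp ((1 - γ2) * L) := by
              conv_lhs => rw [hNexp]
              rw [← Real.exp_add, mul_assoc, ← Real.exp_add]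
              congr 2
              rw [hγ2]
              ring
          _ ≤ _ := by
              refine mul_le_mul_of_nonneg_left (Real.exp_le_exp.2 ?_) (by positivity)
              refine mul_le_mul_of_nonneg_right ?_ hL0.le
              linarith [min_le_right γ1 γ2]
      have e4 : 12 * N * Real.exp (-(γ1 * L)) ≤ 12 * Real.exp ((1 - min γ1 γ2) * L) := by
        calc 12 * N * Real.exp (-(γ1 * L)) = 12 * Real.exp ((1 - γ1) * L) := by
              conv_lhs => rw [hNexp]
              rw [mul_assoc, ← Real.exp_add]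
              congr 2
              ring
          _ ≤ _ := by
              refine mul_le_mul_of_nonneg_left (Real.exp_le_exp.2 ?_) (by positivity)
              refine mul_le_mul_of_nonneg_right ?_ hL0.le
              linarith [min_le_left γ1 γ2]
      calc _ ≤ 12 * Real.exp ((1 - min γ1 γ2) * L) +
            8 * ((2 * l + 4 : ℕ) : ℝ) * Real.exp ((1 - min γ1 γ2) * L) := add_le_add e4 e3
        _ = _ := by ring
  refine key2.descend.mono (le_refl _) (le_of_eq ?_)
  ring

end Pool.Agent.W967.Rig
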