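import Pool.Agent.W967.Rig.Grp

set_option autoImplicit false
set_option linter.unusedSectionVars false

/-!
# Choice of the parameters
-/

namespace Pool.Agent.W967.Rig

open Matrix Finset Filter Topology

theorem log_two_gt' : (2 : ℝ) / 3 ≤ Real.log 2 := by
  have := Real.log_two_gt_d9
  linarith

theorem log_six_le : Real.log 6 ≤ 2 := by
  rw [Real.log_le_iff_le_exp (by norm_num)]
  have h := Real.exp_one_gt_d9
  have h2 : Real.exp 2 = Real.exp 1 * Real.exp 1 := by rw [← Real.exp_add]; norm_num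
  rw [h2]
  nlinarith

theorem exists_l (p : ℕ) (hp : 2 ≤ p) (ε : ℝ) (hε : 0 < ε) :
    ∃ l : ℕ, 2 ≤ l ∧
      (4 * (l : ℝ) + 8) * ((1 / (l : ℝ) ^ 2) * Real.log (1 / (1 / (l : ℝ) ^ 2)) +
        6 * p * (1 / (l : ℝ) ^ 2)) ≤ ε / 2 ∧
      7 / (2 : ℝ) ^ l < (1 / (l : ℝ) ^ 2) ^ 2 / (1200 * (p : ℝ) ^ 2) := by
  have hp0 : (0 : ℝ) < p := by positivity
  have t1 : Tendsto (fun l : ℕ => Real.log l / (l : ℝ)) atTop (𝓝 0) := by
    have h := Real.isLittleO_log_id_atTop.tendsto_div_nhds_zero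
    exact h.comp tendsto_natCast_atTop_atTop
  have t2 : Tendsto (fun l : ℕ => 1 / (l : ℝ)) atTop (𝓝 0) := tendsto_one_div_atTop_nhds_zero_nat
  have t3 : Tendsto (fun l : ℕ => (l : ℝ) ^ 4 / 2 ^ l) atTop (𝓝 0) :=
    tendsto_pow_const_div_const_pow_of_one_lt 4 (by norm_num)
  have c1 : (0 : ℝ) < ε / 100 := by positivity
  have c2 : (0 : ℝ) < ε / (400 * p) := by positivity
  have c3 : (0 : ℝ) < 1 / (7 * (1200 * (p : ℝ) ^ 2)) := by positivity
  have e1 := (t1.eventually (gt_mem_nhds c1))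
  have e2 := (t2.eventually (gt_mem_nhds c2))
  have e3 := (t3.eventually (gt_mem_nhds c3))
  obtain ⟨l, ⟨⟨h1, h2⟩, h3⟩, h4⟩ := ((e1.and e2).and e3).and (eventually_ge_atTop 2) |>.exists
  refine ⟨l, h4, ?_, ?_⟩
  · have hl : (2 : ℝ) ≤ l := by exact_mod_cast h4
    have hl0 : (0 : ℝ) < l := by linarith
    have e4 : Real.log (1 / (1 / (l : ℝ) ^ 2)) = 2 * Real.log l := by
      rw [one_div_one_div, Real.log_pow]
      norm_num
    rw [e4]
    have e5 : (4 * (l : ℝ) + 8) * (1 / (l : ℝ) ^ 2 * (2 * Real.log l) + 6 * p * (1 / (l : ℝ) ^ 2)) =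
        (4 * (l : ℝ) + 8) / l * (2 * (Real.log l / l) + 6 * p * (1 / l)) := by
      field_simp
    rw [e5]
    have e6 : (4 * (l : ℝ) + 8) / l ≤ 8 := by
      rw [div_le_iff₀ hl0]
      linarith
    have e7 : 6 * (p : ℝ) * (1 / l) ≤ 6 * p * (ε / (400 * p)) :=
      mul_le_mul_of_nonneg_left h2.le (by positivity)
    have e8 : 6 * (p : ℝ) * (ε / (400 * p)) = 6 * ε / 400 := by
      field_simp
    have e9 : 0 ≤ Real.log l / l := div_nonneg (Real.log_nonneg (by linarith)) hl0.le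
    have e10 : 0 ≤ 2 * (Real.log l / l) + 6 * p * (1 / (l : ℝ)) := by positivity
    calc (4 * (l : ℝ) + 8) / l * (2 * (Real.log l / l) + 6 * p * (1 / l))
        ≤ 8 * (2 * (Real.log l / l) + 6 * p * (1 / l)) := mul_le_mul_of_nonneg_right e6 e10
      _ ≤ 8 * (2 * (ε / 100) + 6 * ε / 400) := by linarith
      _ ≤ ε / 2 := by linarith
  · have hl : (2 : ℝ) ≤ l := by exact_mod_cast h4
    have hl0 : (0 : ℝ) < l := by linarith
    have h2l : (0 : ℝ) < 2 ^ l := by positivity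
    rw [div_lt_iff₀ h2l] at h3
    rw [div_lt_iff₀ h2l]
    have e4 : (1 / (l : ℝ) ^ 2) ^ 2 / (1200 * (p : ℝ) ^ 2) * 2 ^ l =
        2 ^ l / (l ^ 4 * (1200 * (p : ℝ) ^ 2)) := by
      field_simp
    rw [e4, lt_div_iff₀ (by positivity)]
    have e5 : 1 / (7 * (1200 * (p : ℝ) ^ 2)) * 2 ^ l * (7 * (1200 * (p : ℝ) ^ 2)) = 2 ^ l := by
      field_simp
    have e6 := mul_lt_mul_of_pos_right h3 (show (0 : ℝ) < 7 * (1200 * (p : ℝ) ^ 2) by positivity)
    rw [e5] at e6
    linarith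

theorem exists_small (M0 : ℕ) (hM0 : 0 < M0) (ε : ℝ) (hε : 0 < ε) :
    ∃ l1 d1 : ℝ, 0 < l1 ∧ l1 ≤ 1 ∧ 0 < d1 ∧
      3 * (d1 * Real.log (1 / l1) + 2 * M0 * l1) ≤ ε / 2 := by
  have hM : (0 : ℝ) < M0 := by exact_mod_cast hM0
  set l1 : ℝ := min 1 (ε / (24 * M0)) with hl1
  have h1 : 0 < l1 := lt_min one_pos (by positivity)
  have h2 : l1 ≤ 1 := min_le_left _ _
  have h3 : l1 ≤ ε / (24 * M0) := min_le_right _ _
  have h4 : 0 ≤ Real.log (1 / l1) := Real.log_nonneg (by rw [le_div_iff₀ h1]; linarith)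
  refine ⟨l1, ε / (12 * (1 + Real.log (1 / l1))), h1, h2, by positivity, ?_⟩
  have h5 : ε / (12 * (1 + Real.log (1 / l1))) * Real.log (1 / l1) ≤ ε / 12 := by
    rw [div_mul_eq_mul_div, div_le_div_iff₀ (by positivity) (by norm_num)]
    nlinarith
  have h6 : 2 * (M0 : ℝ) * l1 ≤ ε / 12 := by
    calc 2 * (M0 : ℝ) * l1 ≤ 2 * M0 * (ε / (24 * M0)) := mul_le_mul_of_nonneg_left h3 (by positivity)
      _ = ε / 12 := by field_simp; ring
  linarith

section

variable {ι : Type} [Fintype ι] [DecidableEq ι] (n : ι → ℕ)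

theorem small_count (hn : ∀ i, 1 < n i) (M0 : ℕ) :
    (Fintype.card {i // n i ≤ M0} : ℝ) ≤ 2 * Real.log (∏ i, (n i : ℝ)) := by
  have h1 : ∀ i, (2 : ℝ) ≤ n i := fun i => by exact_mod_cast hn i
  have h2 : (Fintype.card {i // n i ≤ M0} : ℝ) ≤ Fintype.card ι := by
    exact_mod_cast Fintype.card_subtype_le _
  have h3 : (Fintype.card ι : ℝ) * Real.log 2 ≤ Real.log (∏ i, (n i : ℝ)) := by
    rw [Real.log_prod (fun i _ => by have := h1 i; positivity)]
    rw [← nsmul_eq_mul, ← Finset.card_univ, ← Finset.sum_const]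
    exact Finset.sum_le_sum fun i _ => Real.log_le_log (by norm_num) (h1 i)
  have h4 := log_two_gt'
  have h5 : (0 : ℝ) ≤ Fintype.card ι := by positivity
  nlinarith

/-- The logarithm of the product of the large factors. -/
theorem large_log (hn : ∀ i, 1 < n i) (M0 : ℕ) :
    ∑ i : {i // ¬ n i ≤ M0}, Real.log (n i) + ∑ i : {i // n i ≤ M0}, Real.log (n i) =
      Real.log (∏ i, (n i : ℝ)) := by
  rw [Real.log_prod (fun i _ => by
    have : (0 : ℝ) < n i := by exact_mod_cast (hn i).trans' (by norm_num)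
    exact this.ne')]
  rw [← Fintype.sum_subtype_add_sum_subtype (fun i => n i ≤ M0) (fun i => Real.log (n i : ℝ))]
  ring

theorem digit_bounds (hn : ∀ i, 1 < n i) {p m b M0 : ℕ} (hp : 2 ≤ p) (hm : 1 ≤ m) (hb2 : 2 ≤ b)
    (hPb : p ^ m ≤ 6 * b) (hPb2 : p ^ m ≤ b ^ 2) (hM0 : (p ^ m) ^ m ≤ M0) (hbM : b ≤ M0)
    (i : {i // ¬ n i ≤ M0}) :
    (Nat.clog b (n i) * m : ℝ) ≤ 6 * Real.log (n i) ∧
      (Nat.clog b (n i) * m : ℝ) * Real.log p ≤ (1 + 7 / m) * Real.log (n i) := by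
  set t := Nat.clog b (n i) with ht
  have hi : M0 < n i := not_le.1 i.2
  have hb0 : (0 : ℝ) < b := by positivity
  have hm0 : (1 : ℝ) ≤ m := by exact_mod_cast hm
  have hp0 : (2 : ℝ) ≤ p := by exact_mod_cast hp
  have hni : (0 : ℝ) < n i := by exact_mod_cast (hn i).trans' (by norm_num)
  have ht1 : 1 ≤ t := Nat.clog_pos (by omega) (hn i)
  have h1 : b ^ (t - 1) < n i := Nat.pow_pred_clog_lt_self (by omega) (hn i)
  have h2 : ((t : ℝ) - 1) * Real.log b ≤ Real.log (n i) := by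
    have h3 : (b : ℝ) ^ (t - 1) ≤ n i := by exact_mod_cast h1.le
    have h4 := Real.log_le_log (by positivity) h3
    rw [Real.log_pow] at h4
    have h5 : ((t - 1 : ℕ) : ℝ) = (t : ℝ) - 1 := by
      rw [Nat.cast_sub ht1]
      norm_num
    rwa [h5] at h4
  have h3 : Real.log b ≤ Real.log (n i) := by
    refine Real.log_le_log hb0 ?_
    exact_mod_cast (hbM.trans hi.le)
  have hlogp : Real.log 2 ≤ Real.log p := Real.log_le_log (by norm_num) hp0
  have h23 := log_two_gt'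
  have h4 : (m : ℝ) * Real.log p ≤ 2 * Real.log b := by
    have h5 : ((p : ℝ) ^ m) ≤ (b : ℝ) ^ 2 := by exact_mod_cast hPb2
    have h6 := Real.log_le_log (by positivity) h5
    rw [Real.log_pow, Real.log_pow] at h6
    exact_mod_cast h6
  have h5 : (m : ℝ) * Real.log p ≤ Real.log b + 2 := by
    have h6 : ((p : ℝ) ^ m) ≤ 6 * b := by exact_mod_cast hPb
    have h7 := Real.log_le_log (by positivity) h6
    rw [Real.log_pow, Real.log_mul (by norm_num) hb0.ne'] at h7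
    linarith [log_six_le]
  have h6 : (m : ℝ) * (m * Real.log p) ≤ Real.log (n i) := by
    have h7 : (((p : ℝ) ^ m) ^ m) ≤ n i := by exact_mod_cast hM0.trans hi.le
    have h8 := Real.log_le_log (by positivity) h7
    rw [Real.log_pow, Real.log_pow] at h8
    exact h8
  have ht1' : (1 : ℝ) ≤ t := by exact_mod_cast ht1
  have hlb : 0 ≤ Real.log b := Real.log_nonneg (by exact_mod_cast (by omega : 1 ≤ b))
  have hln : 0 ≤ Real.log (n i) := hlb.trans h3
  constructor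
  · -- `t m log p ≤ 2 t log b ≤ 4 log n`
    have h7 : (t : ℝ) * m * Real.log p ≤ 4 * Real.log (n i) := by
      calc (t : ℝ) * m * Real.log p = t * (m * Real.log p) := by ring
        _ ≤ t * (2 * Real.log b) := mul_le_mul_of_nonneg_left h4 (by positivity)
        _ = 2 * (((t : ℝ) - 1) * Real.log b + Real.log b) := by ring
        _ ≤ 4 * Real.log (n i) := by linarith
    have h8 : (t : ℝ) * m * (2 / 3) ≤ (t : ℝ) * m * Real.log p :=
      mul_le_mul_of_nonneg_left (by linarith) (by positivity)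
    linarith
  · have h7 : (t : ℝ) * m * Real.log p ≤ Real.log (n i) + 2 * ((t : ℝ) - 1) + m * Real.log p := by
      calc (t : ℝ) * m * Real.log p = ((t : ℝ) - 1) * (m * Real.log p) + m * Real.log p := by ring
        _ ≤ ((t : ℝ) - 1) * (Real.log b + 2) + m * Real.log p := by
            have := mul_le_mul_of_nonneg_left h5 (show 0 ≤ (t : ℝ) - 1 by linarith)
            linarith
        _ = ((t : ℝ) - 1) * Real.log b + 2 * ((t : ℝ) - 1) + m * Real.log p := by ring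
        _ ≤ _ := by linarith
    have h8 : ((t : ℝ) - 1) * m ≤ 3 * Real.log (n i) := by
      have h9 : (m : ℝ) * (2 / 3) ≤ 2 * Real.log b :=
        (mul_le_mul_of_nonneg_left (by linarith) (by positivity)).trans h4
      have h10 : (m : ℝ) ≤ 3 * Real.log b := by linarith
      calc ((t : ℝ) - 1) * m ≤ ((t : ℝ) - 1) * (3 * Real.log b) :=
            mul_le_mul_of_nonneg_left h10 (by linarith)
        _ = 3 * (((t : ℝ) - 1) * Real.log b) := by ring
        _ ≤ _ := by linarith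
    have h9 : 2 * ((t : ℝ) - 1) ≤ 6 / m * Real.log (n i) := by
      rw [div_mul_eq_mul_div, le_div_iff₀ (by positivity)]
      linarith
    have h10 : m * Real.log p ≤ 1 / m * Real.log (n i) := by
      rw [div_mul_eq_mul_div, le_div_iff₀ (by positivity)]
      linarith
    calc (t : ℝ) * m * Real.log p ≤ Real.log (n i) + 6 / m * Real.log (n i) +
          1 / m * Real.log (n i) := by linarith
      _ = (1 + 7 / m) * Real.log (n i) := by ring

theorem rr_bounds (hn : ∀ i, 1 < n i) {p m b M0 : ℕ} (hp : 2 ≤ p) (hm : 1 ≤ m) (hb2 : 2 ≤ b)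
    (hPb : p ^ m ≤ 6 * b) (hPb2 : p ^ m ≤ b ^ 2) (hM0 : (p ^ m) ^ m ≤ M0) (hbM : b ≤ M0) :
    ((rr n M0 b * m : ℕ) : ℝ) ≤ 6 * Real.log (∏ i, (n i : ℝ)) ∧
      (p : ℝ) ^ (rr n M0 b * m) * ∏ i : {i // n i ≤ M0}, (n i : ℝ) ≤
        (∏ i, (n i : ℝ)) * Real.exp (7 / m * Real.log (∏ i, (n i : ℝ))) := by
  have hpos : ∀ i, (0 : ℝ) < n i := fun i => by exact_mod_cast (hn i).trans' (by norm_num)
  have hN : 0 < ∏ i, (n i : ℝ) := Finset.prod_pos fun i _ => hpos i
  have h0 := large_log n hn M0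
  have hsm : 0 ≤ ∑ i : {i // n i ≤ M0}, Real.log (n i) := Finset.sum_nonneg fun i _ =>
    Real.log_nonneg (by exact_mod_cast (hn i).le)
  have hm0 : (1 : ℝ) ≤ m := by exact_mod_cast hm
  have hlogp : 0 ≤ Real.log p := Real.log_nonneg (by exact_mod_cast (by omega : 1 ≤ p))
  have hrr : ((rr n M0 b * m : ℕ) : ℝ) = ∑ i : {i // ¬ n i ≤ M0}, (Nat.clog b (n i) * m : ℝ) := by
    rw [rr]
    push_cast
    rw [Finset.sum_mul]
  constructor
  · rw [hrr]
    calc ∑ i : {i // ¬ n i ≤ M0}, (Nat.clog b (n i) * m : ℝ)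
        ≤ ∑ i : {i // ¬ n i ≤ M0}, 6 * Real.log (n i) :=
          Finset.sum_le_sum fun i _ => (digit_bounds n hn hp hm hb2 hPb hPb2 hM0 hbM i).1
      _ = 6 * ∑ i : {i // ¬ n i ≤ M0}, Real.log (n i) := by rw [Finset.mul_sum]
      _ ≤ _ := by linarith
  · have h1 : (p : ℝ) ^ (rr n M0 b * m) = Real.exp (((rr n M0 b * m : ℕ) : ℝ) * Real.log p) := by
      rw [Real.exp_nat_mul, Real.exp_log (by exact_mod_cast (by omega : 0 < p))]
    have h2 : ∏ i : {i // n i ≤ M0}, (n i : ℝ) =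
        Real.exp (∑ i : {i // n i ≤ M0}, Real.log (n i)) := by
      rw [Real.exp_sum]
      exact Finset.prod_congr rfl fun i _ => (Real.exp_log (hpos i)).symm
    rw [h1, h2, ← Real.exp_add]
    conv_rhs => rw [← Real.exp_log hN, Real.log_exp]
    rw [← Real.exp_add]
    refine Real.exp_le_exp.2 ?_
    have h3 : ((rr n M0 b * m : ℕ) : ℝ) * Real.log p ≤
        (1 + 7 / m) * ∑ i : {i // ¬ n i ≤ M0}, Real.log (n i) := by
      rw [hrr, Finset.sum_mul, Finset.mul_sum]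
      exact Finset.sum_le_sum fun i _ => (digit_bounds n hn hp hm hb2 hPb hPb2 hM0 hbM i).2
    have h4 : 0 ≤ 7 / (m : ℝ) := by positivity
    have h5 : 7 / (m : ℝ) * ∑ i : {i // ¬ n i ≤ M0}, Real.log (n i) ≤
        7 / m * Real.log (∏ i, (n i : ℝ)) := mul_le_mul_of_nonneg_left (by linarith) h4
    linarith

end

end Pool.Agent.W967.Rig
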