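import Pool.Agent.W967.Rig.Grad

set_option autoImplicit false
set_option linter.unusedSectionVars false

/-!
# Tensor powers of products of graded matrices
-/

namespace Pool.Agent.W967.Rig

open Matrix Finset Kronecker
open Pool.Agent.W966.Kron (tens tens_mul)

variable {K : Type*} [Field K]

theorem rs_one {X : Type} [Fintype X] [DecidableEq X] : RS 1 0 (1 : Matrix X X K) := by
  classical
  refine ⟨1, 0, by simp, Rk.zero, fun x => ?_⟩
  have : (Finset.univ.filter fun y => (1 : Matrix X X K) x y ≠ 0) ⊆ {x} := by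
    intro y hy
    rw [Finset.mem_filter, Matrix.one_apply] at hy
    rw [Finset.mem_singleton]
    by_contra hne
    exact hy.2 (if_neg (Ne.symm hne))
  exact_mod_cast Finset.card_le_card this

section

variable {ι : Type} [Fintype ι] [DecidableEq ι] {α : ι → Type} [∀ i, Fintype (α i)]
  [∀ i, DecidableEq (α i)]

theorem rs_ch {M k : ℝ} (hM : 0 < M) {c : ℕ} {T : Matrix (∀ i, α i) (∀ i, α i) K} (h : Ch M c T)
    (hk : (Fintype.card ι : ℝ) ≤ k) (hk0 : 0 < k) {d : ℕ} (hd : ∀ i, Fintype.card (α i) ≤ d)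
    {l s : ℝ} (hl : 0 < l) (hl1 : l ≤ 1) (hs : 0 ≤ s) (Γ : Type) [Fintype Γ] [DecidableEq Γ] :
    RS (Real.exp (s * Real.log (1 / l) + l * d * k) ^ c)
      (c * (4 * (Fintype.card (∀ i, α i) * Fintype.card Γ) *
        Real.exp (-(s ^ 2 / (8 * M ^ 2 * k)))))
      (T ⊗ₖ (1 : Matrix Γ Γ K)) := by
  induction c generalizing T with
  | zero =>
    have : T = 1 := h
    rw [this, Matrix.one_kronecker_one]
    simpa using rs_one
  | succ c ih =>
    obtain ⟨A, B, h1, h2, h3, rfl⟩ := h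
    have e : (A * B) ⊗ₖ (1 : Matrix Γ Γ K) = (A ⊗ₖ (1 : Matrix Γ Γ K)) * (B ⊗ₖ (1 : Matrix Γ Γ K)) := by
      rw [← Matrix.mul_kronecker_mul, Matrix.one_mul]
    rw [e]
    have h4 := rs_kron' hM h2 hk hk0 hd hl hl1 hs Γ
    have h5 : RS (Real.exp (s * Real.log (1 / l) + l * d * k))
      (4 * (Fintype.card (∀ i, α i) * Fintype.card Γ) * Real.exp (-(s ^ 2 / (8 * M ^ 2 * k))))
      (A ⊗ₖ (1 : Matrix Γ Γ K)) := h4
    refine (h5.mul (ih h3) (by positivity)).mono (le_of_eq ?_) (le_of_eq ?_)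
    · rw [pow_succ]
      ring
    · push_cast
      ring

end

section

variable {J ι : Type} [Fintype J] [DecidableEq J] [Fintype ι] [DecidableEq ι] {A : Type}
  [Fintype A] [DecidableEq A]

/-- The tensor power of a matrix. -/
def tp (J : Type) [Fintype J] (T : Matrix (ι → A) (ι → A) K) :
    Matrix (J × ι → A) (J × ι → A) K :=
  (tens (fun _ : J => T)).submatrix (Equiv.curry J ι A) (Equiv.curry J ι A)

theorem tp_apply (T : Matrix (ι → A) (ι → A) K) (x y : J × ι → A) :
    tp J T x y = ∏ j, T (fun i => x (j, i)) (fun i => y (j, i)) := rfl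

theorem tp_mul (S T : Matrix (ι → A) (ι → A) K) : tp J (S * T) = tp J S * tp J T := by
  rw [tp, tp, tp, Matrix.submatrix_mul_equiv, tens_mul]

theorem tp_one : tp J (1 : Matrix (ι → A) (ι → A) K) = 1 := by
  have : tens (fun _ : J => (1 : Matrix (ι → A) (ι → A) K)) = 1 := by
    ext x y
    rw [Matrix.one_apply]
    simp only [tens, Matrix.one_apply]
    by_cases h : x = y
    · simp [h]
    · rw [if_neg h]
      obtain ⟨j, hj⟩ := Function.ne_iff.1 h
      exact Finset.prod_eq_zero (Finset.mem_univ j) (if_neg hj)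
  rw [tp, this, Matrix.submatrix_one_equiv]

theorem gr_tp {M : ℝ} {T : Matrix (ι → A) (ι → A) K} (h : Gr M T) : Gr M (tp J T) := by
  obtain ⟨φ, hφ, h1⟩ := h
  refine ⟨fun p => φ p.2, fun p a => hφ p.2 a, fun x y hxy => ?_⟩
  have h2 : ∀ j, T (fun i => x (j, i)) (fun i => y (j, i)) ≠ 0 := fun j =>
    Finset.prod_ne_zero_iff.1 hxy j (Finset.mem_univ j)
  rw [hammingDist_eq_sum, Fintype.sum_prod_type, Fintype.sum_prod_type, Fintype.sum_prod_type,
    ← Finset.sum_sub_distrib]
  refine Finset.sum_le_sum fun j _ => ?_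
  have := h1 _ _ (h2 j)
  rw [hammingDist_eq_sum] at this
  exact this

theorem isUnit_tp {T : Matrix (ι → A) (ι → A) K} (hT : IsUnit T.det) : IsUnit (tp J T).det := by
  have h1 : tp J T * tp J T⁻¹ = 1 := by
    rw [← tp_mul, Matrix.mul_nonsing_inv _ hT, tp_one]
  have h2 : (tp J T).det * (tp J T⁻¹).det = 1 := by
    rw [← Matrix.det_mul, h1, Matrix.det_one]
  exact IsUnit.of_mul_eq_one _ h2

theorem ch_tp {M : ℝ} {c : ℕ} {T : Matrix (ι → A) (ι → A) K} (h : Ch M c T) :
    Ch M c (tp J T) := by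
  induction c generalizing T with
  | zero =>
    have : T = 1 := h
    rw [this, tp_one]
    rfl
  | succ c ih =>
    obtain ⟨A, B, h1, h2, h3, rfl⟩ := h
    exact ⟨tp J A, tp J B, isUnit_tp h1, gr_tp h2, ih h3, tp_mul A B⟩

end

end Pool.Agent.W967.Rig
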