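import Mathlib

set_option autoImplicit false
set_option linter.unusedSectionVars false

/-!
# Monomials in linear forms under a change of variables with two blocks

`y` is a family of elements of a commutative algebra whose `p`-th powers are linear combinations
of the `y`.  The monomials with exponents less than `p` in the variables `y' = F y` are expressed by
those in the variables `y`, where `F` only adds to the variables of the block `B` variables
outside of `B`.
-/

namespace Pool.Agent.W967.Rig

open Finset

variable {K : Type*} [Field K] {A : Type*} [CommRing A] [Algebra K A] {ι : Type} [Fintype ι]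
  [DecidableEq ι]

/-- Monomials. -/
def mon (y : ι → A) (μ : ι → ℕ) : A := ∏ i, y i ^ μ i

theorem mon_eq (y : ι → A) (μ : ι → ℕ) (j : ι) :
    mon y μ = y j ^ μ j * ∏ i ∈ univ.erase j, y i ^ μ i :=
  (Finset.mul_prod_erase univ (fun i => y i ^ μ i) (mem_univ j)).symm

theorem mon_update (y : ι → A) (μ : ι → ℕ) (j : ι) (a : ℕ) :
    mon y (Function.update μ j a) = y j ^ a * ∏ i ∈ univ.erase j, y i ^ μ i := by
  rw [mon_eq y _ j, Function.update_self]
  congr 1
  refine Finset.prod_congr rfl fun i hi => ?_
  rw [Function.update_of_ne (Finset.ne_of_mem_erase hi)]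

theorem sum_update (w μ : ι → ℕ) (j : ι) (a : ℕ) :
    ∑ i, w i * Function.update μ j a i = w j * a + ∑ i ∈ univ.erase j, w i * μ i := by
  rw [← Finset.add_sum_erase univ _ (mem_univ j), Function.update_self]
  congr 1
  refine Finset.sum_congr rfl fun i hi => ?_
  rw [Function.update_of_ne (Finset.ne_of_mem_erase hi)]

theorem sum_eq' (w μ : ι → ℕ) (j : ι) :
    ∑ i, w i * μ i = w j * μ j + ∑ i ∈ univ.erase j, w i * μ i :=
  (Finset.add_sum_erase univ _ (mem_univ j)).symm

theorem ham_update_le (μ : ι → ℕ) (j : ι) (a : ℕ) :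
    hammingDist μ (Function.update μ j a) ≤ 1 := by
  unfold hammingDist
  calc (univ.filter fun i => μ i ≠ Function.update μ j a i).card ≤ ({j} : Finset ι).card := by
        refine Finset.card_le_card fun i hi => ?_
        rw [Finset.mem_filter] at hi
        rw [Finset.mem_singleton]
        by_contra hne
        exact hi.2 (by rw [Function.update_of_ne hne])
    _ = 1 := Finset.card_singleton j

theorem ham_update_update_le (μ ν : ι → ℕ) (j : ι) (a b : ℕ) (h : a ≠ b → μ j ≠ ν j) :
    hammingDist (Function.update μ j a) (Function.update ν j b) ≤ hammingDist μ ν := by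
  unfold hammingDist
  refine Finset.card_le_card fun i hi => ?_
  rw [Finset.mem_filter] at hi ⊢
  refine ⟨mem_univ _, ?_⟩
  by_cases hij : i = j
  · subst hij
    have := hi.2
    rw [Function.update_self, Function.update_self] at this
    exact h this
  · have := hi.2
    rwa [Function.update_of_ne hij, Function.update_of_ne hij] at this

variable (K) in
/-- The span of the monomials with exponents less than `p` and with the property `P`. -/
def sp (p : ℕ) (y : ι → A) (P : (ι → ℕ) → Prop) : Submodule K A :=
  Submodule.span K {a | ∃ ν : ι → ℕ, (∀ i, ν i < p) ∧ P ν ∧ a = mon y ν}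

theorem mem_sp {p : ℕ} {y : ι → A} {P : (ι → ℕ) → Prop} {ν : ι → ℕ} (h : ∀ i, ν i < p)
    (hP : P ν) : mon y ν ∈ sp K p y P :=
  Submodule.subset_span ⟨ν, h, hP, rfl⟩

theorem sp_mono {p : ℕ} {y : ι → A} {P Q : (ι → ℕ) → Prop}
    (h : ∀ ν, (∀ i, ν i < p) → P ν → Q ν) : sp K p y P ≤ sp K p y Q := by
  refine Submodule.span_mono ?_
  rintro a ⟨ν, h1, h2, rfl⟩
  exact ⟨ν, h1, h ν h1 h2, rfl⟩

variable {p : ℕ} {y : ι → A} {ψ : ι → ℕ}

theorem lt_of_update {μ : ι → ℕ} (hμ : ∀ i, μ i < p) (j : ι) {a : ℕ} (ha : a < p) (i : ι) :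
    Function.update μ j a i < p := by
  by_cases hij : i = j
  · subst hij
    rwa [Function.update_self]
  · rw [Function.update_of_ne hij]
    exact hμ i

/-- Multiplication of a monomial by a variable. -/
theorem mul_var (hp : 2 ≤ p) (hy : ∀ j, ∃ c : ι → K, y j ^ p = ∑ l, c l • y l)
    (hψ : ∀ i, ψ i = 1 ∨ ψ i = 2) (n : ℕ) :
    ∀ μ : ι → ℕ, (∀ i, μ i < p) → ∑ i, 1 * μ i = n → ∀ j, mon y μ * y j ∈
      sp K p y fun ν => hammingDist μ ν + ∑ i, 1 * ν i ≤ ∑ i, 1 * μ i + 2 ∧
        ∑ i, ψ i * ν i ≤ ∑ i, ψ i * μ i + ψ j := by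
  induction n using Nat.strong_induction_on with
  | _ n ih =>
    intro μ hμ hn j
    by_cases hj : μ j + 1 < p
    · have e1 : mon y μ * y j = mon y (Function.update μ j (μ j + 1)) := by
        rw [mon_update, mon_eq y μ j]
        ring
      rw [e1]
      refine mem_sp (fun i => lt_of_update hμ j hj i) ⟨?_, ?_⟩
      · have h1 := ham_update_le μ j (μ j + 1)
        have h2 := sum_update (fun _ => 1) μ j (μ j + 1)
        have h3 := sum_eq' (fun _ => 1) μ j
        omega
      · have h2 := sum_update ψ μ j (μ j + 1)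
        have h3 := sum_eq' ψ μ j
        rw [mul_add] at h2
        omega
    · have hj' : μ j + 1 = p := by have := hμ j; omega
      obtain ⟨c, hc⟩ := hy j
      set μ' := Function.update μ j 0 with hμ'
      have e1 : mon y μ * y j = ∑ l, c l • (mon y μ' * y l) := by
        rw [hμ', mon_update, mon_eq y μ j]
        have : y j ^ μ j * (∏ i ∈ univ.erase j, y i ^ μ i) * y j =
            (∏ i ∈ univ.erase j, y i ^ μ i) * y j ^ p := by
          rw [← hj']
          ring
        rw [this, hc, Finset.mul_sum]
        refine Finset.sum_congr rfl fun l _ => ?_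
        rw [pow_zero, one_mul, mul_smul_comm]
      rw [e1]
      refine Submodule.sum_mem _ fun l _ => Submodule.smul_mem _ _ ?_
      have h2 := sum_update (fun _ => 1) μ j 0
      have h3 := sum_eq' (fun _ => 1) μ j
      have h4 := sum_update ψ μ j 0
      have h5 := sum_eq' ψ μ j
      have h6 := ham_update_le μ j 0
      rw [← hμ'] at h2 h4 h6
      have h7 : ∑ i, 1 * μ' i < n := by omega
      refine sp_mono ?_ (ih _ h7 μ' (fun i => lt_of_update hμ j (by omega) i) rfl l)
      rintro ν hν ⟨h8, h9⟩
      have h10 := hammingDist_triangle μ μ' ν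
      refine ⟨by omega, ?_⟩
      have h11 : ψ j ≤ ψ j * μ j := Nat.le_mul_of_pos_right _ (by omega)
      rcases hψ l with h12 | h12 <;> rcases hψ j with h13 | h13 <;> omega

/-- The change of variables. -/
theorem step (hp : 2 ≤ p) (hy : ∀ j, ∃ c : ι → K, y j ^ p = ∑ l, c l • y l)
    (hψ : ∀ i, ψ i = 1 ∨ ψ i = 2) (F : ι → ι → K) (hF : ∀ i t, F i t ≠ 0 → i = t ∨ ψ t < ψ i)
    (n : ℕ) : ∀ μ : ι → ℕ, (∀ i, μ i < p) → ∑ i, 1 * μ i = n →
      mon (fun i => ∑ t, F i t • y t) μ ∈
      sp K p y fun ν => hammingDist μ ν + ∑ i, (1 + 2 * ψ i) * ν i ≤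
        ∑ i, (1 + 2 * ψ i) * μ i := by
  induction n with
  | zero =>
    intro μ hμ hn
    have h0 : μ = fun _ => 0 := by
      funext i
      have := (Finset.sum_eq_zero_iff.1 hn) i (mem_univ i)
      omega
    subst h0
    have e1 : mon (fun i => ∑ t, F i t • y t) (fun _ => 0) = mon y (fun _ => 0) := by
      simp [mon]
    rw [e1]
    exact mem_sp hμ (by simp)
  | succ n ih =>
    intro μ hμ hn
    obtain ⟨i, hi⟩ : ∃ i, μ i ≠ 0 := by
      by_contra hcon
      push Not at hcon
      rw [Finset.sum_eq_zero (fun i _ => by rw [hcon i, mul_zero])] at hn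
      omega
    set ν := Function.update μ i (μ i - 1) with hν
    have hνi : ν i = μ i - 1 := by rw [hν, Function.update_self]
    have hμν : μ = Function.update ν i (ν i + 1) := by
      rw [hν, Function.update_self, Function.update_idem]
      have : μ i - 1 + 1 = μ i := by omega
      rw [this, Function.update_eq_self]
    have hν' : ∀ i, ν i < p := fun i' => lt_of_update hμ i (by have := hμ i; omega) i'
    have s1 := sum_update (fun _ => 1) ν i (ν i + 1)
    have s2 := sum_eq' (fun _ => 1) ν i
    have s3 := sum_update (fun i => 1 + 2 * ψ i) ν i (ν i + 1)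
    have s4 := sum_eq' (fun i => 1 + 2 * ψ i) ν i
    rw [← hμν] at s1 s3
    rw [mul_add, mul_one] at s3
    have hsum : ∑ i, (1 + 2 * ψ i) * μ i = ∑ i, (1 + 2 * ψ i) * ν i + (1 + 2 * ψ i) := by
      omega
    have h1 := ih ν hν' (by omega)
    have e1 : mon (fun i => ∑ t, F i t • y t) μ =
        mon (fun i => ∑ t, F i t • y t) ν * ∑ t, F i t • y t := by
      rw [mon_eq _ ν i]
      conv_lhs => rw [hμν, mon_update]
      ring
    rw [e1]
    -- reduce to the generators
    have key : ∀ μ' : ι → ℕ, (∀ i, μ' i < p) →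
        hammingDist ν μ' + ∑ i, (1 + 2 * ψ i) * μ' i ≤ ∑ i, (1 + 2 * ψ i) * ν i →
        mon y μ' * ∑ t, F i t • y t ∈ sp K p y fun ρ =>
          hammingDist μ ρ + ∑ i, (1 + 2 * ψ i) * ρ i ≤ ∑ i, (1 + 2 * ψ i) * μ i := by
      intro μ' hμ' hR
      rw [Finset.mul_sum]
      refine Submodule.sum_mem _ fun t _ => ?_
      rw [mul_smul_comm]
      by_cases hFt : F i t = 0
      · rw [hFt, zero_smul]
        exact Submodule.zero_mem _
      refine Submodule.smul_mem _ _ ?_
      have split : ∀ ρ : ι → ℕ, ∑ i, (1 + 2 * ψ i) * ρ i = ∑ i, 1 * ρ i + 2 * ∑ i, ψ i * ρ i := by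
        intro ρ
        rw [Finset.mul_sum, ← Finset.sum_add_distrib]
        refine Finset.sum_congr rfl fun i _ => by ring
      rcases hF i t hFt with hit | hit
      · subst hit
        by_cases hμi : μ' i + 1 < p
        · have e2 : mon y μ' * y i = mon y (Function.update μ' i (μ' i + 1)) := by
            rw [mon_update, mon_eq y μ' i]
            ring
          rw [e2]
          refine mem_sp (fun j => lt_of_update hμ' i hμi j) ?_
          have h2 := sum_update (fun i => 1 + 2 * ψ i) μ' i (μ' i + 1)
          have h3 := sum_eq' (fun i => 1 + 2 * ψ i) μ' i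
          have h4 := ham_update_update_le ν μ' i (ν i + 1) (μ' i + 1) (by omega)
          rw [← hμν] at h4
          rw [mul_add, mul_one] at h2
          rw [hsum]
          omega
        · have hμi' : μ' i + 1 = p := by have := hμ' i; omega
          obtain ⟨c, hc⟩ := hy i
          set μ0 := Function.update μ' i 0 with hμ0
          have e2 : mon y μ' * y i = ∑ l, c l • (mon y μ0 * y l) := by
            rw [hμ0, mon_update, mon_eq y μ' i]
            have : y i ^ μ' i * (∏ j ∈ univ.erase i, y j ^ μ' j) * y i =
                (∏ j ∈ univ.erase i, y j ^ μ' j) * y i ^ p := by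
              rw [← hμi']
              ring
            rw [this, hc, Finset.mul_sum]
            refine Finset.sum_congr rfl fun l _ => ?_
            rw [pow_zero, one_mul, mul_smul_comm]
          rw [e2]
          refine Submodule.sum_mem _ fun l _ => Submodule.smul_mem _ _ ?_
          refine sp_mono ?_ (mul_var hp hy hψ _ μ0
            (fun j => lt_of_update hμ' i (by omega) j) rfl l)
          rintro ρ hρ ⟨h8, h9⟩
          have h10 := hammingDist_triangle μ μ0 ρ
          have h11 : hammingDist μ μ0 ≤ hammingDist ν μ' := by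
            have := ham_update_update_le ν μ' i (ν i + 1) 0 (by
              intro _ hcon
              have := hμ i
              omega)
            rwa [← hμν] at this
          have h12 := sum_update (fun i => 1 + 2 * ψ i) μ' i 0
          have h13 := sum_eq' (fun i => 1 + 2 * ψ i) μ' i
          rw [← hμ0] at h12
          have h14 : 1 + 2 * ψ i ≤ (1 + 2 * ψ i) * μ' i := Nat.le_mul_of_pos_right _ (by omega)
          rw [hsum]
          have h15 := split ρ
          have h16 := split μ0
          rcases hψ l with h17 | h17 <;> rcases hψ i with h18 | h18 <;> omega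
      · refine sp_mono ?_ (mul_var hp hy hψ _ μ' hμ' rfl t)
        rintro ρ hρ ⟨h8, h9⟩
        have h10 := hammingDist_triangle μ ν ρ
        have h11 := hammingDist_triangle ν μ' ρ
        have h12 : hammingDist μ ν ≤ 1 := ham_update_le μ i _
        have h15 := split ρ
        have h16 := split μ'
        have h17 := split ν
        have h18 := split μ
        rcases hψ t with h19 | h19 <;> rcases hψ i with h20 | h20 <;> omega
    have h2 : ∀ a ∈ sp K p y (fun ρ => hammingDist ν ρ + ∑ i, (1 + 2 * ψ i) * ρ i ≤
        ∑ i, (1 + 2 * ψ i) * ν i), a * ∑ t, F i t • y t ∈ sp K p y fun ρ =>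
          hammingDist μ ρ + ∑ i, (1 + 2 * ψ i) * ρ i ≤ ∑ i, (1 + 2 * ψ i) * μ i := by
      intro a ha
      refine Submodule.span_induction ?_ ?_ ?_ ?_ ha
      · rintro x ⟨ρ, h3, h4, rfl⟩
        exact key ρ h3 h4
      · rw [zero_mul]
        exact Submodule.zero_mem _
      · intro x z _ _ hx hz
        rw [add_mul]
        exact Submodule.add_mem _ hx hz
      · intro c x _ hx
        rw [smul_mul_assoc]
        exact Submodule.smul_mem _ _ hx
    exact h2 _ h1

end Pool.Agent.W967.Rig
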