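import Pool.Agent.W967.Rig.Vmat

set_option autoImplicit false
set_option linter.unusedSectionVars false

/-!
# Multilevel Toeplitz matrices by evaluation and interpolation
-/

namespace Pool.Agent.W967.Rig

open Matrix Finset Kronecker
open Pool.Agent.W966.Kron (tens tens_mul)

variable {K : Type*} [Field K] {m p : ℕ} {J : Type} [Fintype J] [DecidableEq J]

/-- The exponents with the given values. -/
def emb (p m : ℕ) (z : J → Fin (p ^ m)) : J × Fin m → Fin p :=
  fun q => finFunctionFinEquiv.symm (z q.1) q.2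

theorem emb_injective : Function.Injective (emb (J := J) p m) := by
  intro z z' h
  funext j
  have h1 : finFunctionFinEquiv.symm (z j) = finFunctionFinEquiv.symm (z' j) := by
    funext i
    exact congrFun h (j, i)
  exact finFunctionFinEquiv.symm.injective h1

theorem tp_V_emb (θ : K) (a : J × Fin m → Fin p) (z : J → Fin (p ^ m)) :
    tp J (V p m θ) a (emb p m z) = ∏ j, pt θ (fun i => a (j, i)) ^ (z j : ℕ) := by
  rw [tp_apply]
  refine Finset.prod_congr rfl fun j _ => ?_
  have h1 : (fun i => emb p m z (j, i)) = finFunctionFinEquiv.symm (z j) := rfl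
  rw [h1, V, Matrix.of_apply, Equiv.apply_symm_apply]

/-- The transform of the coefficients. -/
noncomputable def gh {b : ℕ} (θ : K) (Φ : (J → ℤ) → K) (a : J × Fin m → Fin p) : K :=
  ∑ d : J → Fin (2 * b), Φ (fun j => ((d j : ℕ) : ℤ) - ((b - 1 : ℕ) : ℤ)) *
    ∏ j, pt θ (fun i => a (j, i)) ^ (d j : ℕ)

theorem toep [Fact p.Prime] [CharP K p] (θ : K)
    (hθ : Function.Injective (pt (p := p) (m := m) θ)) {b : ℕ} (hb : 3 * b ≤ p ^ m)
    (Φ : (J → ℤ) → K) (x y : J → Fin b) :
    ∑ a, tp J (V p m θ)⁻¹ (emb p m fun j => ⟨(x j : ℕ) + (b - 1), by have := (x j).2; omega⟩) a *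
      gh (b := b) θ Φ a * tp J (V p m θ) a (emb p m fun j => ⟨y j, by have := (y j).2; omega⟩) =
      Φ fun j => ((x j : ℕ) : ℤ) - ((y j : ℕ) : ℤ) := by
  set xr : J → Fin (p ^ m) := fun j => ⟨(x j : ℕ) + (b - 1), by have := (x j).2; omega⟩ with hxr
  set yc : J → Fin (p ^ m) := fun j => ⟨y j, by have := (y j).2; omega⟩ with hyc
  have hinv : tp J (V p m θ)⁻¹ * tp J (V p m θ) = (1 : Matrix _ _ K) := by
    rw [← tp_mul, Matrix.nonsing_inv_mul _ (V_isUnit θ hθ), tp_one]
  let yd : (J → Fin (2 * b)) → J → Fin (p ^ m) := fun d j =>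
    ⟨(y j : ℕ) + d j, by have := (y j).2; have := (d j).2; omega⟩
  have h1 : ∀ a, gh (b := b) θ Φ a * tp J (V p m θ) a (emb p m yc) =
      ∑ d : J → Fin (2 * b), Φ (fun j => ((d j : ℕ) : ℤ) - ((b - 1 : ℕ) : ℤ)) *
        tp J (V p m θ) a (emb p m (yd d)) := by
    intro a
    rw [gh, Finset.sum_mul]
    refine Finset.sum_congr rfl fun d _ => ?_
    rw [tp_V_emb, tp_V_emb, mul_assoc, ← Finset.prod_mul_distrib]
    congr 1
    refine Finset.prod_congr rfl fun j _ => ?_
    rw [← pow_add]
    congr 1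
    simp only [yd, hyc]
    ring
  have h2 : ∑ a, tp J (V p m θ)⁻¹ (emb p m xr) a * gh (b := b) θ Φ a *
      tp J (V p m θ) a (emb p m yc) =
      ∑ d : J → Fin (2 * b), Φ (fun j => ((d j : ℕ) : ℤ) - ((b - 1 : ℕ) : ℤ)) *
        (if xr = yd d then 1 else 0) := by
    calc _ = ∑ a, ∑ d : J → Fin (2 * b), Φ (fun j => ((d j : ℕ) : ℤ) - ((b - 1 : ℕ) : ℤ)) *
          (tp J (V p m θ)⁻¹ (emb p m xr) a * tp J (V p m θ) a (emb p m (yd d))) := by
          refine Finset.sum_congr rfl fun a _ => ?_
          rw [mul_assoc, h1, Finset.mul_sum]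
          refine Finset.sum_congr rfl fun d _ => by ring
      _ = _ := by
          rw [Finset.sum_comm]
          refine Finset.sum_congr rfl fun d _ => ?_
          rw [← Finset.mul_sum]
          congr 1
          have h3 := congrFun (congrFun hinv (emb p m xr)) (emb p m (yd d))
          rw [Matrix.mul_apply, Matrix.one_apply] at h3
          rw [h3]
          by_cases h4 : xr = yd d
          · rw [if_pos h4, if_pos (by rw [h4])]
          · rw [if_neg h4, if_neg fun h5 => h4 (emb_injective h5)]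
  rw [h2]
  have hd0 : ∀ j, (x j : ℕ) + (b - 1) - y j < 2 * b := fun j => by have := (x j).2; omega
  rw [Finset.sum_eq_single (fun j => (⟨(x j : ℕ) + (b - 1) - y j, hd0 j⟩ : Fin (2 * b)))]
  · rw [if_pos, mul_one]
    · congr 1
      funext j
      have h5 := (x j).2
      have h6 := (y j).2
      simp only
      omega
    · funext j
      apply Fin.ext
      have h5 := (x j).2
      have h6 := (y j).2
      simp only [hxr, yd]
      omega
  · intro d _ hd
    rw [if_neg, mul_zero]
    intro h5
    apply hd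
    funext j
    apply Fin.ext
    have h6 := congrArg Fin.val (congrFun h5 j)
    simp only [hxr, yd] at h6 ⊢
    omega
  · intro h
    exact absurd (mem_univ _) h

end Pool.Agent.W967.Rig
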