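import Pool.Agent.W967.Rig.Step
import Pool.Agent.W967.Rig.Pow

set_option autoImplicit false
set_option linter.unusedSectionVars false

/-!
# Evaluation at the points of an `𝔽_p`-subspace is a product of few graded matrices
-/

namespace Pool.Agent.W967.Rig

open Matrix Finset Kronecker
open Pool.Agent.W966.Kron (tens tens_mul trunc fac trunc_top trunc_zero_diag trunc_succ trunc_det
  fac_ne vand_lu)

variable {K : Type*} [Field K]

theorem exists_coeff {A : Type*} [CommRing A] [Algebra K A] {ι : Type} [Fintype ι]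
    [DecidableEq ι] {p : ℕ} {y : ι → A} {P : (ι → ℕ) → Prop} {a : A} (ha : a ∈ sp K p y P) :
    ∃ c : (ι → Fin p) → K, (∀ ν, c ν ≠ 0 → P fun i => (ν i : ℕ)) ∧
      a = ∑ ν, c ν • mon y fun i => (ν i : ℕ) := by
  classical
  refine Submodule.span_induction ?_ ?_ ?_ ?_ ha
  · rintro x ⟨ν, h1, h2, rfl⟩
    refine ⟨Pi.single (fun i => ⟨ν i, h1 i⟩) 1, ?_, ?_⟩
    · intro μ hμ
      rw [Pi.single_apply] at hμ
      split_ifs at hμ with h3
      · rw [h3]
        exact h2
      · exact absurd rfl hμ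
    · rw [Finset.sum_eq_single (fun i => (⟨ν i, h1 i⟩ : Fin p))]
      · rw [Pi.single_eq_same, one_smul]
      · intro μ _ hμ
        rw [Pi.single_eq_of_ne hμ, zero_smul]
      · intro h
        exact absurd (mem_univ _) h
  · exact ⟨0, fun ν h => absurd rfl h, by simp⟩
  · rintro x z _ _ ⟨c, h1, rfl⟩ ⟨c', h1', rfl⟩
    refine ⟨c + c', fun ν h => ?_, ?_⟩
    · by_cases h0 : c ν = 0
      · refine h1' ν ?_
        rwa [Pi.add_apply, h0, zero_add] at h
      · exact h1 ν h0
    · rw [← Finset.sum_add_distrib]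
      refine Finset.sum_congr rfl fun ν _ => ?_
      rw [Pi.add_apply, add_smul]
  · rintro b x _ ⟨c, h1, rfl⟩
    refine ⟨b • c, fun ν h => h1 ν fun h0 => h ?_, ?_⟩
    · rw [Pi.smul_apply, h0, smul_zero]
    · rw [Finset.smul_sum]
      refine Finset.sum_congr rfl fun ν _ => ?_
      rw [Pi.smul_apply, smul_assoc]

section Weak

variable {ι : Type} [Fintype ι] [DecidableEq ι] {α : ι → Type} [∀ i, Fintype (α i)]
  [∀ i, DecidableEq (α i)]

/-- `T` is a product of `k` graded matrices. -/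
def WCh (M : ℝ) : ℕ → Matrix (∀ i, α i) (∀ i, α i) K → Prop
  | 0, T => T = 1
  | k + 1, T => ∃ A B, Gr M A ∧ WCh M k B ∧ T = A * B

theorem WCh.mul {M : ℝ} {k l : ℕ} {A B : Matrix (∀ i, α i) (∀ i, α i) K} (hA : WCh M k A)
    (hB : WCh M l B) : WCh M (k + l) (A * B) := by
  induction k generalizing A with
  | zero =>
    have : A = 1 := hA
    rw [this, Matrix.one_mul, Nat.zero_add]
    exact hB
  | succ k ih =>
    obtain ⟨C, D, h2, h3, rfl⟩ := hA
    rw [Nat.succ_add, Matrix.mul_assoc]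
    exact ⟨C, D * B, h2, ih h3, rfl⟩

theorem WCh.single {M : ℝ} {A : Matrix (∀ i, α i) (∀ i, α i) K} (h : Gr M A) : WCh M 1 A :=
  ⟨A, 1, h, rfl, by rw [Matrix.mul_one]⟩

theorem WCh.ch {M : ℝ} {k : ℕ} {A : Matrix (∀ i, α i) (∀ i, α i) K} (hA : WCh M k A)
    (h : IsUnit A.det) : Ch M k A := by
  induction k generalizing A with
  | zero => exact hA
  | succ k ih =>
    obtain ⟨C, D, h2, h3, rfl⟩ := hA
    rw [Matrix.det_mul] at h
    exact ⟨C, D, isUnit_of_mul_isUnit_left h, h2, ih h3 (isUnit_of_mul_isUnit_right h), rfl⟩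

end Weak

variable {m p : ℕ}

/-- Evaluation of the monomials in the linear forms given by `Y` at the points of `𝔽_p^m`. -/
def Ev (p : ℕ) (Y : Matrix (Fin m) (Fin m) K) : Matrix (Fin m → Fin p) (Fin m → Fin p) K :=
  Matrix.of fun a μ => ∏ i, (∑ t, Y i t * ((a t : ℕ) : K)) ^ (μ i : ℕ)

/-- A matrix which only adds to the variables of a block variables outside of the block. -/
def Lev (F : Matrix (Fin m) (Fin m) K) : Prop :=
  IsUnit F.det ∧ ∃ ψ : Fin m → ℕ, (∀ i, ψ i = 1 ∨ ψ i = 2) ∧ ∀ i t, F i t ≠ 0 → i = t ∨ ψ t < ψ i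

theorem ev_step [hp : Fact p.Prime] [CharP K p] (Y F : Matrix (Fin m) (Fin m) K)
    (hY : IsUnit Y.det) (hF : Lev F) :
    ∃ T : Matrix (Fin m → Fin p) (Fin m → Fin p) K, Gr (5 * p) T ∧ Ev p (F * Y) = Ev p Y * T := by
  obtain ⟨-, ψ, hψ, hF⟩ := hF
  have hp2 : 2 ≤ p := hp.out.two_le
  let y : Fin m → ((Fin m → Fin p) → K) := fun i a => ∑ t, Y i t * ((a t : ℕ) : K)
  have hy : ∀ j, ∃ c : Fin m → K, y j ^ p = ∑ l, c l • y l := by
    intro j
    refine ⟨fun l => ∑ t, Y j t ^ p * Y⁻¹ t l, ?_⟩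
    funext a
    have hinv : ∀ t, ((a t : ℕ) : K) = ∑ l, Y⁻¹ t l * ∑ t', Y l t' * ((a t' : ℕ) : K) := by
      intro t
      have h1 : (Y⁻¹ *ᵥ (Y *ᵥ fun t => ((a t : ℕ) : K))) t = ((a t : ℕ) : K) := by
        rw [Matrix.mulVec_mulVec, Matrix.nonsing_inv_mul _ hY, Matrix.one_mulVec]
      rw [← h1]
      rfl
    have h2 : (y j ^ p) a = ∑ t, Y j t ^ p * ((a t : ℕ) : K) := by
      rw [Pi.pow_apply]
      simp only [y]
      have := map_sum (frobenius K p) (fun t => Y j t * ((a t : ℕ) : K)) univ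
      simp only [frobenius_def] at this
      rw [this]
      refine Finset.sum_congr rfl fun t _ => ?_
      rw [mul_pow]
      congr 1
      have := map_natCast (frobenius K p) (a t : ℕ)
      rwa [frobenius_def] at this
    rw [h2, Finset.sum_apply]
    simp only [Pi.smul_apply, smul_eq_mul, Finset.sum_mul]
    rw [Finset.sum_comm]
    refine Finset.sum_congr rfl fun t _ => ?_
    conv_lhs => rw [hinv t]
    rw [Finset.mul_sum]
    refine Finset.sum_congr rfl fun l _ => ?_
    simp only [y]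
    ring
  have h1 : ∀ μ : Fin m → Fin p, ∃ c : (Fin m → Fin p) → K,
      (∀ ν, c ν ≠ 0 → hammingDist (fun i => (μ i : ℕ)) (fun i => (ν i : ℕ)) +
        ∑ i, (1 + 2 * ψ i) * (ν i : ℕ) ≤ ∑ i, (1 + 2 * ψ i) * (μ i : ℕ)) ∧
      mon (fun i => ∑ t, F i t • y t) (fun i => (μ i : ℕ)) =
        ∑ ν, c ν • mon y fun i => (ν i : ℕ) := by
    intro μ
    exact exists_coeff (step hp2 hy hψ F hF _ (fun i => (μ i : ℕ)) (fun i => (μ i).2) rfl)
  choose c hc1 hc2 using h1
  refine ⟨Matrix.of fun ν μ => c μ ν, ?_, ?_⟩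
  · have h2 : Gr (5 * p : ℝ) (Matrix.of fun ν μ => c μ ν : Matrix (Fin m → Fin p) (Fin m → Fin p) K)ᵀ := by
      refine ⟨fun i a => (1 + 2 * ψ i) * (a : ℕ), fun i a => ⟨by positivity, ?_⟩, ?_⟩
      · have h3 : (1 + 2 * (ψ i : ℝ)) ≤ 5 := by
          rcases hψ i with h | h <;> rw [h] <;> norm_num
        have h4 : ((a : ℕ) : ℝ) ≤ p := by exact_mod_cast a.2.le
        have h5 : (0 : ℝ) ≤ (a : ℕ) := by positivity
        nlinarith
      · intro μ ν hne
        rw [Matrix.transpose_apply, Matrix.of_apply] at hne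
        have h3 := hc1 μ ν hne
        have h4 : hammingDist (fun i => (μ i : ℕ)) (fun i => (ν i : ℕ)) = hammingDist μ ν :=
          hammingDist_comp (fun _ => Fin.val) (fun _ => Fin.val_injective)
        rw [h4] at h3
        have h5 : (hammingDist μ ν : ℝ) + ∑ i, (1 + 2 * (ψ i : ℝ)) * ((ν i : ℕ) : ℝ) ≤
            ∑ i, (1 + 2 * (ψ i : ℝ)) * ((μ i : ℕ) : ℝ) := by exact_mod_cast h3
        linarith
    have h3 := h2.transpose
    rwa [Matrix.transpose_transpose] at h3
  · ext a μ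
    have h2 := congrFun (hc2 μ) a
    rw [Matrix.mul_apply]
    simp only [Ev, Matrix.of_apply]
    simp only [mon, Finset.prod_apply, Pi.pow_apply, Finset.sum_apply, Pi.smul_apply,
      smul_eq_mul, y] at h2
    have h3 : ∀ i, ∑ t, (F * Y) i t * ((a t : ℕ) : K) =
        ∑ t, F i t * ∑ t', Y t t' * ((a t' : ℕ) : K) := by
      intro i
      simp only [Matrix.mul_apply, Finset.sum_mul, Finset.mul_sum]
      rw [Finset.sum_comm]
      refine Finset.sum_congr rfl fun t _ => Finset.sum_congr rfl fun t' _ => by ring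
    simp only [h3]
    rw [h2]
    refine Finset.sum_congr rfl fun ν _ => by ring

/-- A product of `k` level matrices. -/
def LevP : ℕ → Matrix (Fin m) (Fin m) K → Prop
  | 0, G => G = 1
  | k + 1, G => ∃ A B, Lev A ∧ LevP k B ∧ G = A * B

theorem LevP.mul {k l : ℕ} {A B : Matrix (Fin m) (Fin m) K} (hA : LevP k A)
    (hB : LevP l B) : LevP (k + l) (A * B) := by
  induction k generalizing A with
  | zero =>
    have : A = 1 := hA
    rw [this, Matrix.one_mul, Nat.zero_add]
    exact hB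
  | succ k ih =>
    obtain ⟨C, D, h2, h3, rfl⟩ := hA
    rw [Nat.succ_add, Matrix.mul_assoc]
    exact ⟨C, D * B, h2, ih h3, rfl⟩

theorem LevP.single {A : Matrix (Fin m) (Fin m) K} (h : Lev A) : LevP 1 A :=
  ⟨A, 1, h, rfl, by rw [Matrix.mul_one]⟩

theorem LevP.isUnit {k : ℕ} {A : Matrix (Fin m) (Fin m) K} (h : LevP k A) : IsUnit A.det := by
  induction k generalizing A with
  | zero =>
    have : A = 1 := h
    simp [this]
  | succ k ih =>
    obtain ⟨C, D, h2, h3, rfl⟩ := h
    rw [Matrix.det_mul]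
    exact h2.1.mul (ih h3)

theorem ev_levP [Fact p.Prime] [CharP K p] {k : ℕ} (G : Matrix (Fin m) (Fin m) K)
    (hG : LevP k G) :
    ∃ T : Matrix (Fin m → Fin p) (Fin m → Fin p) K, WCh (5 * p) k T ∧ Ev p G = Ev p 1 * T := by
  induction k generalizing G with
  | zero =>
    have : G = 1 := hG
    exact ⟨1, rfl, by rw [this, Matrix.mul_one]⟩
  | succ k ih =>
    obtain ⟨C, D, h2, h3, rfl⟩ := hG
    obtain ⟨T, hT, hD⟩ := ih D h3
    obtain ⟨T', hT', hC⟩ := ev_step (p := p) D C h3.isUnit h2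
    refine ⟨T * T', hT.mul (WCh.single hT'), ?_⟩
    rw [hC, hD, Matrix.mul_assoc]

theorem Lev.transpose {F : Matrix (Fin m) (Fin m) K} (h : Lev F) : Lev Fᵀ := by
  obtain ⟨h0, ψ, hψ, h1⟩ := h
  refine ⟨by rwa [Matrix.det_transpose], fun i => 3 - ψ i, fun i => ?_, fun i t hne => ?_⟩
  · rcases hψ i with h | h <;> simp [h]
  · rcases h1 t i hne with h | h
    · exact Or.inl h.symm
    · right
      have := hψ i
      have := hψ t
      change 3 - ψ t < 3 - ψ i
      omega

theorem LevP.transpose {k : ℕ} {F : Matrix (Fin m) (Fin m) K} (h : LevP k F) : LevP k Fᵀ := by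
  induction k generalizing F with
  | zero =>
    have : F = 1 := h
    rw [this, Matrix.transpose_one]
    rfl
  | succ k ih =>
    obtain ⟨C, D, h2, h3, rfl⟩ := h
    rw [Matrix.transpose_mul]
    exact (ih h3).mul (LevP.single h2.transpose)

theorem levP_lower (L : Matrix (Fin m) (Fin m) K) (hL : ∀ a c, a < c → L a c = 0)
    (hdet : L.det ≠ 0) (j : ℕ) : LevP (1 + j) (trunc j L) := by
  induction j with
  | zero =>
    refine LevP.single ⟨?_, fun _ => 1, fun _ => Or.inl rfl, fun a c h => ?_⟩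
    · rw [trunc_det 0 L hL]
      exact isUnit_iff_ne_zero.2 hdet
    · exact Or.inl (trunc_zero_diag L a c h)
  | succ j ih =>
    rw [trunc_succ j L hL hdet, ← add_assoc]
    refine ih.mul (LevP.single ⟨?_, fun a => 1 + (a : ℕ) / 2 ^ j % 2, fun a => ?_,
      fun a c h => ?_⟩)
    · have h1 := congrArg Matrix.det (trunc_succ j L hL hdet)
      rw [Matrix.det_mul, trunc_det (j + 1) L hL] at h1
      refine isUnit_iff_ne_zero.2 ?_
      rw [h1] at hdet
      exact right_ne_zero_of_mul hdet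
    · have := Nat.mod_lt ((a : ℕ) / 2 ^ j) (by norm_num : 0 < 2)
      change 1 + (a : ℕ) / 2 ^ j % 2 = 1 ∨ 1 + (a : ℕ) / 2 ^ j % 2 = 2
      omega
    · rcases fac_ne j L hL hdet a c h with h1 | h1
      · exact Or.inl h1
      · exact Or.inr (by
          change 1 + (c : ℕ) / 2 ^ j % 2 < 1 + (a : ℕ) / 2 ^ j % 2
          omega)

theorem levP_vand (v : Fin m → K) (hv : Function.Injective v) {l : ℕ} (hl : m ≤ 2 ^ l) :
    LevP (2 * l + 2) (Matrix.vandermonde v) := by
  obtain ⟨L, U, h, hL, hU, hLd, hUd⟩ := vand_lu v hv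
  have h1 := levP_lower L hL hLd l
  rw [trunc_top hl] at h1
  have h2 := levP_lower Uᵀ (fun a c h => hU c a h) (by rwa [Matrix.det_transpose]) l
  rw [trunc_top hl] at h2
  have h3 := h2.transpose
  rw [Matrix.transpose_transpose] at h3
  rw [h]
  have := h1.mul h3
  have e : 1 + l + (1 + l) = 2 * l + 2 := by ring
  rwa [e] at this

theorem wch_ev_one [hp : Fact p.Prime] [CharP K p] :
    WCh (5 * p) 2 (Ev p (1 : Matrix (Fin m) (Fin m) K)) := by
  have hp2 : 2 ≤ p := hp.out.two_le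
  have hv : Function.Injective (fun a : Fin p => ((a : ℕ) : K)) := by
    intro a b hab
    have h1 := (CharP.natCast_eq_natCast K p).1 hab
    have h2 := Nat.ModEq.eq_of_lt_of_lt h1 a.2 b.2
    exact Fin.ext h2
  obtain ⟨L, U, h, hL, hU, hLd, hUd⟩ := vand_lu (fun a : Fin p => ((a : ℕ) : K)) hv
  have h1 : Ev p (1 : Matrix (Fin m) (Fin m) K) =
      tens (fun _ : Fin m => L) * tens (fun _ : Fin m => U) := by
    rw [tens_mul]
    ext a μ
    simp only [Ev, Matrix.of_apply, tens, ← h, Matrix.vandermonde_apply]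
    refine Finset.prod_congr rfl fun i _ => ?_
    congr 1
    rw [Finset.sum_eq_single i]
    · simp
    · intro t _ ht
      rw [Matrix.one_apply_ne (Ne.symm ht), zero_mul]
    · simp
  rw [h1]
  have hb : ∀ a : Fin p, ((a : ℕ) : ℝ) ≤ 5 * p := by
    intro a
    have : ((a : ℕ) : ℝ) ≤ p := by exact_mod_cast a.2.le
    have : (0 : ℝ) ≤ p := by positivity
    linarith
  refine WCh.mul (k := 1) (l := 1) (WCh.single ?_) (WCh.single ?_)
  · refine gr_tens (fun _ : Fin m => L) (fun _ a => ((a : ℕ) : ℝ)) (fun _ a =>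
      ⟨by positivity, hb a⟩) fun _ a c hne => ?_
    rcases lt_trichotomy a c with h2 | h2 | h2
    · exact absurd (hL a c h2) hne
    · exact Or.inl h2
    · right
      have h3 : (c : ℕ) + 1 ≤ a := h2
      exact_mod_cast h3
  · refine gr_tens (fun _ : Fin m => U) (fun _ a => 5 * p - ((a : ℕ) : ℝ)) (fun _ a =>
      ⟨by linarith [hb a], by
        have : (0 : ℝ) ≤ (a : ℕ) := by positivity
        linarith⟩) fun _ a c hne => ?_
    rcases lt_trichotomy a c with h2 | h2 | h2
    · right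
      have h3 : (a : ℕ) + 1 ≤ c := h2
      have h4 : ((a : ℕ) : ℝ) + 1 ≤ (c : ℕ) := by exact_mod_cast h3
      linarith
    · exact Or.inl h2
    · exact absurd (hU a c h2) hne

/-- The point with coordinates `a`. -/
def pt (θ : K) (a : Fin m → Fin p) : K := ∑ t, ((a t : ℕ) : K) * θ ^ (t : ℕ)

/-- Evaluation of the powers of the variable at the points. -/
def V (p m : ℕ) (θ : K) : Matrix (Fin m → Fin p) (Fin m → Fin p) K :=
  Matrix.of fun a μ => pt θ a ^ (finFunctionFinEquiv μ : ℕ)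

theorem V_eq_vand (θ : K) : V p m θ = (Matrix.vandermonde fun i : Fin (p ^ m) =>
    pt θ (finFunctionFinEquiv.symm i)).submatrix finFunctionFinEquiv finFunctionFinEquiv := by
  ext a μ
  simp [V, Matrix.vandermonde_apply]

theorem V_isUnit (θ : K) (hθ : Function.Injective (pt (p := p) (m := m) θ)) :
    IsUnit (V p m θ).det := by
  rw [V_eq_vand, Matrix.det_submatrix_equiv_self, isUnit_iff_ne_zero]
  refine Matrix.det_vandermonde_ne_zero_iff.2 ?_
  exact hθ.comp finFunctionFinEquiv.symm.injective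

theorem V_eq_ev [hp : Fact p.Prime] [CharP K p] (θ : K) :
    V p m θ = Ev p (Matrix.vandermonde fun i : Fin m => θ ^ p ^ (i : ℕ)) := by
  ext a μ
  simp only [V, Ev, Matrix.of_apply, Matrix.vandermonde_apply, finFunctionFinEquiv_apply]
  rw [← Finset.prod_pow_eq_pow_sum]
  refine Finset.prod_congr rfl fun i _ => ?_
  rw [mul_comm, pow_mul]
  congr 1
  rw [pt]
  have h1 := map_sum (iterateFrobenius K p (i : ℕ)) (fun t : Fin m => ((a t : ℕ) : K) * θ ^ (t : ℕ)) univ
  simp only [iterateFrobenius_def] at h1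
  rw [h1]
  refine Finset.sum_congr rfl fun t _ => ?_
  rw [mul_pow, mul_comm, ← pow_mul, ← pow_mul, mul_comm (t : ℕ)]
  congr 1
  have h2 := map_natCast (iterateFrobenius K p (i : ℕ)) (a t : ℕ)
  rwa [iterateFrobenius_def] at h2

theorem theta_inj [hp : Fact p.Prime] [CharP K p] (θ : K)
    (hθ : Function.Injective (pt (p := p) (m := m) θ)) :
    Function.Injective fun i : Fin m => θ ^ p ^ (i : ℕ) := by
  classical
  -- otherwise two rows of the Vandermonde matrix agree and `a ^ (p ^ i) = a ^ (p ^ j)`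
  have key : ∀ i j : Fin m, i < j → θ ^ p ^ (i : ℕ) ≠ θ ^ p ^ (j : ℕ) := by
    intro i j hij h
    have hpow : ∀ a : Fin m → Fin p, pt θ a ^ p ^ (i : ℕ) = pt θ a ^ p ^ (j : ℕ) := by
      intro a
      have h0 : ∀ n : ℕ, pt θ a ^ p ^ n = ∑ t : Fin m, ((a t : ℕ) : K) * (θ ^ p ^ n) ^ (t : ℕ) := by
        intro n
        have h1 := map_sum (iterateFrobenius K p n)
          (fun t : Fin m => ((a t : ℕ) : K) * θ ^ (t : ℕ)) univ
        simp only [iterateFrobenius_def] at h1
        rw [pt, h1]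
        refine Finset.sum_congr rfl fun t _ => ?_
        rw [mul_pow, ← pow_mul, ← pow_mul, mul_comm (t : ℕ)]
        congr 1
        have h2 := map_natCast (iterateFrobenius K p n) (a t : ℕ)
        rwa [iterateFrobenius_def] at h2
      rw [h0, h0, h]
    have hp1 : 1 < p := hp.out.one_lt
    open Polynomial in
    let P : K[X] := X ^ p ^ (j : ℕ) - X ^ p ^ (i : ℕ)
    have hlt : p ^ (i : ℕ) < p ^ (j : ℕ) := Nat.pow_lt_pow_right hp1 hij
    have hdeg : P.natDegree = p ^ (j : ℕ) := by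
      simp only [P]
      rw [Polynomial.natDegree_sub_eq_left_of_natDegree_lt]
      · simp
      · simpa using hlt
    have hP0 : P ≠ 0 := by
      intro h0
      rw [h0, Polynomial.natDegree_zero] at hdeg
      have : 0 < p ^ (j : ℕ) := Nat.pow_pos (by omega)
      omega
    have hcard := Polynomial.card_roots' P
    have h1 : (Finset.univ.image (pt (p := p) (m := m) θ)).card ≤ P.roots.card := by
      refine le_trans (Finset.card_le_card ?_) (Multiset.toFinset_card_le P.roots)
      intro b hb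
      rw [Finset.mem_image] at hb
      obtain ⟨a, -, rfl⟩ := hb
      rw [Multiset.mem_toFinset, Polynomial.mem_roots hP0]
      simp [P, Polynomial.IsRoot, hpow a]
    rw [Finset.card_image_of_injective _ hθ, Finset.card_univ, Fintype.card_fun, Fintype.card_fin,
      Fintype.card_fin] at h1
    have h2 : p ^ (j : ℕ) < p ^ m := Nat.pow_lt_pow_right hp1 j.2
    omega
  intro i j h
  rcases lt_trichotomy i j with h1 | h1 | h1
  · exact absurd h (key i j h1)
  · exact h1
  · exact absurd h.symm (key j i h1)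

/-- **The evaluation matrix is a product of `2 l + 4` graded matrices**, `m ≤ 2 ^ l`. -/
theorem ch_V [hp : Fact p.Prime] [CharP K p] (θ : K)
    (hθ : Function.Injective (pt (p := p) (m := m) θ)) {l : ℕ} (hl : m ≤ 2 ^ l) :
    Ch (5 * p) (2 * l + 4) (V p m θ) := by
  obtain ⟨T, hT, h⟩ := ev_levP (p := p) _ (levP_vand _ (theta_inj θ hθ) hl)
  have h1 : V p m θ = Ev p 1 * T := by rw [V_eq_ev, h]
  have h2 := (wch_ev_one (K := K) (m := m) (p := p)).mul hT
  rw [← h1] at h2
  have e : 2 + (2 * l + 2) = 2 * l + 4 := by ring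
  rw [e] at h2
  exact h2.ch (V_isUnit θ hθ)

end Pool.Agent.W967.Rig
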